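import Pool.Agent.W_MP_0cd67c_ag.Step

/-!
Passage from the generic case to all parameters along a line starting at `g_0`.
-/

namespace Pool.Agent.W_MP_0cd67c_ag

open Polynomial

/-- Separability at one parameter gives separability at all but finitely many parameters. -/
theorem finite_bad (B : ℝ[X][X]) (N : ℕ) (hB : B.natDegree ≤ N) (s₀ : ℝ)
    (h1 : (B.map (evalRingHom s₀)).natDegree = N) (h2 : (B.map (evalRingHom s₀)).Separable) :
    {s : ℝ | ¬ ((B.map (evalRingHom s)).natDegree = N ∧
      (B.map (evalRingHom s)).Separable)}.Finite := by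
  set P : ℝ[X] := B.coeff N * resultant B (derivative B) N (N - 1) with hP
  have hder : ∀ p : ℝ[X], p.natDegree = N → (derivative p).natDegree = N - 1 := by
    intro p hp
    rw [natDegree_derivative, hp]
  have hev : ∀ s : ℝ, P.eval s = (B.map (evalRingHom s)).coeff N *
      resultant (B.map (evalRingHom s)) (derivative (B.map (evalRingHom s))) N (N - 1) := by
    intro s
    rw [hP, eval_mul, derivative_map, resultant_map_map, coeff_map]
    rfl
  have hP0 : P ≠ 0 := by
    intro h
    have h3 := hev s₀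
    rw [h, eval_zero] at h3
    have h0 : B.map (evalRingHom s₀) ≠ 0 := fun h => not_separable_zero (h ▸ h2)
    rcases mul_eq_zero.1 h3.symm with h4 | h4
    · apply h0
      rw [← leadingCoeff_eq_zero, leadingCoeff, h1, h4]
    · have h5 : resultant (B.map (evalRingHom s₀)) (derivative (B.map (evalRingHom s₀))) = 0 := by
        rw [hder _ h1, h1]; exact h4
      rw [resultant_eq_zero_iff] at h5
      exact h5.2 h2
  refine (P.roots.toFinset.finite_toSet).subset ?_
  intro s hs
  by_contra hc
  apply hs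
  have hPs : P.eval s ≠ 0 := by
    intro h
    apply hc
    simp only [Finset.mem_coe, Multiset.mem_toFinset]
    exact (mem_roots hP0).2 h
  rw [hev s] at hPs
  have h3 : (B.map (evalRingHom s)).coeff N ≠ 0 := left_ne_zero_of_mul hPs
  have h4 := right_ne_zero_of_mul hPs
  have h5 : (B.map (evalRingHom s)).natDegree = N :=
    le_antisymm (natDegree_map_le.trans hB) (le_natDegree_of_ne_zero h3)
  refine ⟨h5, ?_⟩
  have h6 : resultant (B.map (evalRingHom s)) (derivative (B.map (evalRingHom s))) ≠ 0 := by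
    rw [hder _ h5, h5]; exact h4
  rw [Ne, resultant_eq_zero_iff] at h6
  push Not at h6
  exact h6 (Or.inl fun h => h3 (by rw [h]; simp))

theorem continuous_param (B : ℝ[X][X]) (z : ℂ) :
    Continuous fun s : ℝ => ((B.map (evalRingHom s)).map (algebraMap ℝ ℂ)).eval z := by
  induction B using Polynomial.induction_on' with
  | add p q hp hq =>
    simp only [Polynomial.map_add, eval_add]
    exact hp.add hq
  | monomial n a =>
    simp only [map_monomial, eval_monomial]
    have : Continuous fun s : ℝ => (algebraMap ℝ ℂ) ((evalRingHom s) a) := by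
      simp only [coe_evalRingHom]
      exact Complex.continuous_ofReal.comp a.continuous
    exact this.mul continuous_const

/-- `f` and `U` for the constant sequence -/
theorem UP_one {ι : Type*} [DecidableEq ι] {K : Type*} [CommRing K] (b : ι → K) (w : ℕ → K)
    (T : Finset ι) (s : ℕ) (hw : ∀ j, s ≤ j → j ≤ s + T.card → w j = 1) :
    UP b w T s = ∏ k ∈ T, (X - C (b k)) := by
  induction T using Finset.induction generalizing s with
  | empty => rw [UP_empty, hw s le_rfl (by simp)]; simp
  | insert k T hk ih =>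
    rw [Finset.card_insert_of_notMem hk] at hw
    rw [UP_insert _ _ hk, ih s fun j h1 h2 => hw j h1 (by omega),
      ih (s + 1) fun j h1 h2 => hw j (by omega) (by omega), Finset.prod_insert hk]
    ring

theorem PS_one {K : Type*} [CommRing K] (k s : ℕ) :
    PS k (fun _ => (1 : K)) s = (X - 1) ^ k := by
  induction k generalizing s with
  | zero => simp [PS]
  | succ k ih => rw [PS_succ, ih, ih, pow_succ]; ring

/-- the expansion of `g_0` -/
theorem g0_eq (k : ℕ) : PS (k + 1) (fun i => (1 - (i : ℝ)) * 1) 0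
    = (X - 1 : ℝ[X]) ^ k * (X + C (k : ℝ)) := by
  rw [PS_euler, PS_one, PS_one, pow_succ]
  simp only [Nat.cast_zero, sub_zero, map_one, one_mul, map_add, map_natCast]
  ring

theorem wseq_g0 (k j : ℕ) (hj : j ≤ k + 1) (hj1 : j ≠ 1) :
    wseq (k + 1) ((X - 1 : ℝ[X]) ^ k * (X + C (k : ℝ))) j = 1 := by
  rw [wseq, ← g0_eq, coeff_PS (k + 1) _ 0 (k + 1 - j) j (by omega), rho]
  have hc : ((k + 1).choose j : ℝ) ≠ 0 := by
    exact_mod_cast (Nat.choose_pos hj).ne'
  have h1 : (1 - (j : ℝ)) ≠ 0 := by
    intro h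
    apply hj1
    have : (j : ℝ) = 1 := by linarith
    exact_mod_cast this
  have h2 : ((-1 : ℝ) ^ j) * (-1) ^ j = 1 := by
    rw [← mul_pow]; simp
  rw [zero_add]
  field_simp
  linear_combination h2

/-- roots of the extremal polynomial -/
noncomputable def x0 (N : ℕ) (i : Fin (N + 2)) : ℝ := if i = 0 then -((N : ℝ) + 1) else 1

theorem prod_x0 (N : ℕ) : ∏ i, (X - C (x0 N i)) = (X - 1 : ℝ[X]) ^ (N + 1) * (X + C ((N + 1 : ℕ) : ℝ)) := by
  rw [Fin.prod_univ_succ]
  simp only [x0, Fin.succ_ne_zero, if_true, if_false, Finset.prod_const, Finset.card_univ,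
    Fintype.card_fin, map_neg, map_one]
  push_cast
  ring

theorem sum_x0 (N : ℕ) : ∑ i, x0 N i = 0 := by
  rw [Fin.sum_univ_succ]
  simp [x0, Fin.succ_ne_zero]

theorem zf_prod {n : ℕ} (x : Fin n → ℝ) : ZF ((∏ i, (X - C (x i))).map (algebraMap ℝ ℂ)) := by
  intro z hz
  rw [Polynomial.map_prod, eval_prod, Finset.prod_ne_zero_iff]
  intro i _
  simp only [Polynomial.map_sub, map_X, map_C, eval_sub, eval_X, eval_C]
  intro h
  have : z = ((x i : ℝ) : ℂ) := sub_eq_zero.1 h
  rw [this] at hz
  simp at hz

theorem natDegree_prod_X_sub {K : Type*} [CommRing K] [Nontrivial K] {n : ℕ} (x : Fin n → K) :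
    (∏ i, (X - C (x i))).natDegree = n := by
  rw [natDegree_prod_of_monic _ _ fun i _ => monic_X_sub_C _]
  simp

theorem coeff_prod_top {K : Type*} [CommRing K] [Nontrivial K] {n : ℕ} (x : Fin n → K) :
    (∏ i, (X - C (x i))).coeff n = 1 := by
  have h1 : (∏ i, (X - C (x i))).Monic := monic_prod_of_monic _ _ fun i _ => monic_X_sub_C _
  have := h1.coeff_natDegree
  rwa [natDegree_prod_X_sub] at this

theorem coeff_prod_pred {K : Type*} [CommRing K] [Nontrivial K] {n : ℕ} (x : Fin (n + 1) → K) :
    (∏ i, (X - C (x i))).coeff n = - ∑ i, x i := by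
  have h := prod_X_sub_C_coeff_card_pred (Finset.univ : Finset (Fin (n + 1))) x (by simp)
  simpa using h

/-- The core theorem. -/
theorem core (N : ℕ) (x : Fin (N + 2) → ℝ) (hx : ∑ i, x i = 0) (a : Fin (N + 1) → ℝ)
    (ha : ∀ i, 0 ≤ a i) :
    ZF ((fpoly a (wseq (N + 2) (∏ i, (X - C (x i)))) Finset.univ).map (algebraMap ℝ ℂ)) := by
  classical
  -- parametrised objects
  set xh : Fin (N + 2) → ℝ[X] := fun i => (1 - X) * C (x0 N i) + X * C (x i) with hxh
  set ah : Fin (N + 1) → ℝ[X] := fun i => (1 - X) * C ((i : ℝ) + 1) + X * C (a i) with hah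
  set gh : ℝ[X][X] := ∏ i, (X - C (xh i)) with hgh
  set wh : ℕ → ℝ[X] := fun j => C (rho (N + 2) j) * gh.coeff (N + 2 - j) with hwh
  set xs : ℝ → Fin (N + 2) → ℝ := fun s i => (1 - s) * x0 N i + s * x i with hxs
  set as : ℝ → Fin (N + 1) → ℝ := fun s i => (1 - s) * ((i : ℝ) + 1) + s * a i with has
  have hgs : ∀ s : ℝ, gh.map (evalRingHom s) = ∏ i, (X - C (xs s i)) := by
    intro s
    rw [hgh, Polynomial.map_prod]
    refine Finset.prod_congr rfl fun i _ => ?_
    rw [Polynomial.map_sub, map_X, map_C]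
    congr 2
    simp only [hxh, hxs, coe_evalRingHom, eval_X, eval_C, eval_add, eval_mul, eval_sub, eval_one]
  have hws : ∀ (s : ℝ) (j : ℕ), evalRingHom s (wh j) = wseq (N + 2) (∏ i, (X - C (xs s i))) j := by
    intro s j
    rw [wseq, ← hgs s, coeff_map, hwh]
    simp
  have has' : ∀ (s : ℝ) (i : Fin (N + 1)), evalRingHom s (ah i) = as s i := by
    intro s i
    simp only [hah, has, map_add, map_mul, map_sub, map_one, coe_evalRingHom, eval_X, eval_C]
  have hfs : ∀ s : ℝ, (fpoly ah wh Finset.univ).map (evalRingHom s)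
      = fpoly (as s) (wseq (N + 2) (∏ i, (X - C (xs s i)))) Finset.univ := by
    intro s
    rw [fpoly, fpoly, Polynomial.map_add, Polynomial.map_mul, Polynomial.map_mul, map_UP, map_UP,
      map_X, map_C, map_sum]
    simp only [hws s, has' s]
  set T : Finset (Fin (N + 1)) := Finset.univ.erase 0 with hT
  have hTcard : T.card = N := by
    rw [hT, Finset.card_erase_of_mem (Finset.mem_univ _)]; simp
  have hTins : insert (0 : Fin (N + 1)) T = Finset.univ :=
    Finset.insert_erase (Finset.mem_univ _)
  have h0T : (0 : Fin (N + 1)) ∉ T := Finset.notMem_erase _ _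
  have hβs : ∀ s : ℝ, (UP ah wh T 2).map (evalRingHom s)
      = UP (as s) (wseq (N + 2) (∏ i, (X - C (xs s i)))) T 2 := by
    intro s
    rw [map_UP]
    simp only [hws s, has' s]
  have hbad := finite_bad (UP ah wh T 2) N ((natDegree_UP_le _ _ _ _).trans hTcard.le) 0 (by
      rw [hβs 0, UP_one, natDegree_prod_of_monic _ _ fun i _ => monic_X_sub_C _]
      · simp [hTcard]
      · intro j hj1 hj2
        have hx0 : xs 0 = x0 N := by funext i; simp [hxs]
        rw [hx0, prod_x0]
        exact wseq_g0 (N + 1) j (by omega) (by omega)) (by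
      rw [hβs 0, UP_one]
      · rw [separable_prod_X_sub_C_iff']
        intro i _ j _ hij
        simp only [has, sub_zero, one_mul, zero_mul, add_zero, add_left_inj, Nat.cast_inj] at hij
        exact Fin.ext hij
      · intro j hj1 hj2
        have hx0 : xs 0 = x0 N := by funext i; simp [hxs]
        rw [hx0, prod_x0]
        exact wseq_g0 (N + 1) j (by omega) (by omega))
  -- generic parameters
  have hgen : ∀ s : ℝ, 0 ≤ s → s < 1 →
      ((UP ah wh T 2).map (evalRingHom s)).natDegree = N ∧
        ((UP ah wh T 2).map (evalRingHom s)).Separable →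
      ZF (((fpoly ah wh Finset.univ).map (evalRingHom s)).map (algebraMap ℝ ℂ)) := by
    intro s hs0 hs1 ⟨hd, hsep⟩
    rw [hfs, ← hTins]
    rw [hβs] at hd hsep
    apply generic_zf (natDegree_prod_X_sub _).le _ (coeff_prod_top _) (zf_prod _) T hTcard h0T
      _ _ hd hsep
    · rw [coeff_prod_pred, neg_eq_zero]
      simp only [hxs, Finset.sum_add_distrib, ← Finset.mul_sum, sum_x0, hx]
      ring
    · intro i _
      have h1 : (0 : ℝ) < (i : ℝ) + 1 := by positivity
      have h2 := ha i
      simp only [has]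
      nlinarith [mul_pos (sub_pos.2 hs1) h1, mul_nonneg hs0 h2]
  -- limit
  have hx1 : xs 1 = x := by funext i; simp [hxs]
  have ha1 : as 1 = a := by funext i; simp [has]
  have hlim : Stab (N + 2) (((fpoly ah wh Finset.univ).map (evalRingHom 1)).map
      (algebraMap ℝ ℂ)) := by
    intro z w hz
    have hcz := continuous_param (fpoly ah wh Finset.univ) z
    have hcw := continuous_param (fpoly ah wh Finset.univ) w
    have h1 : Filter.Tendsto (fun s : ℝ => ‖(((fpoly ah wh Finset.univ).map (evalRingHom s)).map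
        (algebraMap ℝ ℂ)).eval w‖) (nhdsWithin 1 (Set.Iio 1)) _ :=
      (hcw.norm.tendsto 1).mono_left nhdsWithin_le_nhds
    have h2 : Filter.Tendsto (fun s : ℝ => (1 + ‖w - z‖ / z.im) ^ (N + 2) *
        ‖(((fpoly ah wh Finset.univ).map (evalRingHom s)).map
        (algebraMap ℝ ℂ)).eval z‖) (nhdsWithin 1 (Set.Iio 1)) _ :=
      ((hcz.norm.tendsto 1).mono_left nhdsWithin_le_nhds).const_mul _
    refine le_of_tendsto_of_tendsto h1 h2 ?_
    have h3 : ∀ᶠ s : ℝ in nhdsWithin 1 (Set.Iio 1), 0 ≤ s := by
      apply Filter.Eventually.filter_mono nhdsWithin_le_nhds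
      filter_upwards [lt_mem_nhds (show (0 : ℝ) < 1 by norm_num)] with s hs using hs.le
    have h4 : ∀ᶠ s : ℝ in nhdsWithin 1 (Set.Iio 1),
        s ∉ ({s : ℝ | ¬ (((UP ah wh T 2).map (evalRingHom s)).natDegree = N ∧
          ((UP ah wh T 2).map (evalRingHom s)).Separable)} \ {1}) := by
      apply Filter.Eventually.filter_mono nhdsWithin_le_nhds
      exact (hbad.subset Set.sdiff_subset).isClosed.compl_mem_nhds (by simp)
    filter_upwards [h3, h4, self_mem_nhdsWithin] with s hs0 hs hs1
    have hs2 : ((UP ah wh T 2).map (evalRingHom s)).natDegree = N ∧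
        ((UP ah wh T 2).map (evalRingHom s)).Separable := by
      by_contra hc
      exact hs ⟨hc, fun h => (ne_of_lt hs1) h⟩
    refine (hgen s hs0 hs1 hs2).stab ?_ z w hz
    refine natDegree_map_le.trans (natDegree_map_le.trans ?_)
    rw [fpoly]
    refine (natDegree_add_le _ _).trans (max_le ?_ ?_)
    · refine natDegree_mul_le.trans ?_
      have := natDegree_UP_le ah wh Finset.univ 0
      rw [Finset.card_univ, Fintype.card_fin] at this
      rw [natDegree_X]; omega
    · refine (natDegree_C_mul_le _ _).trans ?_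
      have := natDegree_UP_le ah wh Finset.univ 1
      rw [Finset.card_univ, Fintype.card_fin] at this
      omega
  rw [hfs, hx1, ha1] at hlim
  apply hlim.zf
  -- nonzero: monic
  intro h
  set g : ℝ[X] := ∏ i, (X - C (x i)) with hg
  have h1 : (fpoly a (wseq (N + 2) g) Finset.univ).coeff (N + 2) = 1 := by
    rw [fpoly, coeff_add, coeff_X_mul, coeff_C_mul]
    have h2 := coeff_UP_card a (wseq (N + 2) g) Finset.univ 0
    rw [Finset.card_univ, Fintype.card_fin] at h2
    have h3 := natDegree_UP_le a (wseq (N + 2) g) Finset.univ 1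
    rw [Finset.card_univ, Fintype.card_fin] at h3
    rw [h2, coeff_eq_zero_of_natDegree_lt (lt_of_le_of_lt h3 (by omega)), wseq, rho]
    have h4 : g.coeff (N + 2) = 1 := coeff_prod_top x
    simp [h4]
  have h5 := congrArg (fun p => p.coeff (N + 2)) h
  simp only [coeff_map, h1, map_one, coeff_zero] at h5
  exact one_ne_zero h5

end Pool.Agent.W_MP_0cd67c_ag
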