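import Mathlib

/-!
Definitions used in the statement.
-/

namespace Pool.Agent.W_MP_0cd67c_ag

open Polynomial

/-- The space `ℝ[t]_{m,0}` (for `m ≥ 1`): real polynomials of degree at most `m` whose coefficient
of `t^(m-1)` is `0`. -/
def ZeroSum (m : ℕ) : Submodule ℝ ℝ[X] where
  carrier := {g | g.natDegree ≤ m ∧ g.coeff (m - 1) = 0}
  add_mem' := by
    rintro a b ⟨h1, h2⟩ ⟨h3, h4⟩
    exact ⟨(natDegree_add_le _ _).trans (max_le h1 h3), by rw [coeff_add, h2, h4, add_zero]⟩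
  zero_mem' := ⟨by simp, by simp⟩
  smul_mem' := by
    rintro c a ⟨h1, h2⟩
    exact ⟨(natDegree_smul_le _ _).trans h1, by rw [coeff_smul, h2, smul_zero]⟩

/-- All complex roots of `g` are real; the zero polynomial is admitted. -/
def OnlyRealRoots (g : ℝ[X]) : Prop := g = 0 ∨ ∀ z : ℂ, aeval z g = 0 → z.im = 0

theorem gZero_mem (n : ℕ) (hn : 1 ≤ n) :
    (X - 1 : ℝ[X]) ^ (n - 1) * (X + C ((n : ℝ) - 1)) ∈ ZeroSum n := by
  obtain ⟨k, rfl⟩ : ∃ k, n = k + 1 := ⟨n - 1, by omega⟩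
  have hX : (X - 1 : ℝ[X]) = X - C 1 := by rw [map_one]
  have hdeg : ((X - 1 : ℝ[X]) ^ k).natDegree = k := by
    rw [hX, natDegree_pow, natDegree_X_sub_C, mul_one]
  refine ⟨?_, ?_⟩
  · refine natDegree_mul_le.trans ?_
    rw [Nat.add_sub_cancel, hdeg, natDegree_X_add_C]
  · have hk : (((k + 1 : ℕ) : ℝ) - 1) = k := by push_cast; ring
    rw [Nat.add_sub_cancel, hk, mul_add, coeff_add, coeff_mul_C]
    have hmon : ((X - 1 : ℝ[X]) ^ k).Monic := by
      rw [hX]; exact (monic_X_sub_C 1).pow k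
    have h1 : ((X - 1 : ℝ[X]) ^ k).coeff k = 1 := by
      have := hmon.coeff_natDegree
      rwa [hdeg] at this
    rw [h1]
    rcases k with _ | k
    · simp
    · rw [coeff_mul_X]
      have h2 := multiset_prod_X_sub_C_coeff_card_pred (Multiset.replicate (k + 1) (1 : ℝ))
        (by simp)
      rw [Multiset.map_replicate, Multiset.prod_replicate, Multiset.card_replicate,
        Multiset.sum_replicate, ← hX, Nat.add_sub_cancel] at h2
      rw [h2]
      simp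

/-- `g_0(t) = (t-1)^(n-1) (t+n-1)`. -/
noncomputable def gZero (n : ℕ) (hn : 1 ≤ n) : ZeroSum n :=
  ⟨(X - 1 : ℝ[X]) ^ (n - 1) * (X + C ((n : ℝ) - 1)), gZero_mem n hn⟩

/-- `T : ℝ[t]_{n,0} → ℝ[t]_{d,0}` is diagonal: there are reals `γ_i` such that
`T(t^(n-i)) = γ_i t^(d-i)` for `i ≤ d` and `T(t^(n-i)) = 0` for `i > d`, for all `i ≤ n` for which
`t^(n-i)` belongs to `ℝ[t]_{n,0}` (that is, `i ≠ 1`). -/
def IsDiagonal {n d : ℕ} (T : ZeroSum n →ₗ[ℝ] ZeroSum d) : Prop :=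
  ∃ γ : ℕ → ℝ, ∀ i ≤ n, ∀ p : ZeroSum n, (p : ℝ[X]) = X ^ (n - i) →
    (T p : ℝ[X]) = if i ≤ d then C (γ i) * X ^ (d - i) else 0

/-- `T` maps polynomials of `ℝ[t]_{n,0}` with only real roots to polynomials with only real
roots. -/
def IsPreserver {n d : ℕ} (T : ZeroSum n →ₗ[ℝ] ZeroSum d) : Prop :=
  ∀ g : ZeroSum n, OnlyRealRoots (g : ℝ[X]) → OnlyRealRoots (T g : ℝ[X])

/-- At least `k` of the real roots of `h`, counted with multiplicity, are `≥ 0`, or at least `k` of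
them are `≤ 0`. -/
def SameSignRoots (k : ℕ) (h : ℝ[X]) : Prop :=
  k ≤ h.roots.countP (fun x => 0 ≤ x) ∨ k ≤ h.roots.countP (fun x => x ≤ 0)

end Pool.Agent.W_MP_0cd67c_ag
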