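import Pool.Agent.W_MP_0cd67c_ag.Lower

/-!
Coefficientwise products with real-rooted polynomials.
-/

namespace Pool.Agent.W_MP_0cd67c_ag

open Polynomial

theorem exists_fin_enum {n : ℕ} {s : Multiset ℝ} (hs : s.card = n) :
    ∃ a : Fin n → ℝ, s = Finset.univ.val.map a := by
  obtain ⟨l, rfl⟩ := Quot.exists_rep s
  have hl : l.length = n := hs
  subst hl
  refine ⟨l.get, ?_⟩
  rw [Fin.univ_val_map, List.ofFn_get]
  rfl

theorem exists_sub_card {n : ℕ} {t : Multiset ℝ} (h : n ≤ t.card) : ∃ s ≤ t, s.card = n := by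
  have h1 : 0 < (Multiset.powersetCard n t).card := by
    rw [Multiset.card_powersetCard]; exact Nat.choose_pos h
  obtain ⟨s, hs⟩ := Multiset.card_pos_iff_exists_mem.1 h1
  exact ⟨s, Multiset.mem_powersetCard.1 hs⟩

/-- coefficientwise product of `H` with the sequence `w` (read from the top) -/
noncomputable def had (m : ℕ) (H : ℝ[X]) (w : ℕ → ℝ) : ℝ[X] :=
  ∑ j ∈ Finset.range (m + 1), C (H.coeff j * w (m - j)) * X ^ j

theorem coeff_had (m : ℕ) (H : ℝ[X]) (w : ℕ → ℝ) (j : ℕ) :
    (had m H w).coeff j = if j ≤ m then H.coeff j * w (m - j) else 0 := by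
  rw [had, finsetSum_coeff]
  simp only [coeff_C_mul, coeff_X_pow, mul_ite, mul_one, mul_zero]
  rw [Finset.sum_ite_eq]
  simp only [Finset.mem_range, Nat.lt_succ_iff]

theorem natDegree_had_le (m : ℕ) (H : ℝ[X]) (w : ℕ → ℝ) : (had m H w).natDegree ≤ m := by
  rw [natDegree_le_iff_coeff_eq_zero]
  intro j hj
  rw [coeff_had, if_neg (by omega)]

theorem had_C_mul (m : ℕ) (c : ℝ) (H : ℝ[X]) (w : ℕ → ℝ) :
    had m (C c * H) w = C c * had m H w := by
  ext j
  rw [coeff_C_mul, coeff_had, coeff_had, coeff_C_mul]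
  split_ifs <;> ring

theorem had_mul {k : ℕ} {p : ℝ[X]} (hp : p.natDegree ≤ k) (c : ℝ) (w : ℕ → ℝ) :
    had (k + 1) ((X - C c) * p) w = X * had k p w - C c * had k p (fun j => w (j + 1)) := by
  ext j
  rw [coeff_had, coeff_sub, coeff_C_mul, coeff_had, sub_mul, coeff_sub, coeff_C_mul]
  rcases j with _ | j
  · simp only [mul_coeff_zero, coeff_X_zero, zero_mul, Nat.zero_le, if_true, Nat.sub_zero]
    ring
  · rw [coeff_X_mul, coeff_X_mul, coeff_had]
    rcases Nat.lt_or_ge j k with h | h
    · rw [if_pos (by omega), if_pos (by omega), if_pos (by omega),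
        show k + 1 - (j + 1) = k - j by omega, show k - (j + 1) + 1 = k - j by omega]
      ring
    · have h0 : p.coeff (j + 1) = 0 := coeff_eq_zero_of_natDegree_lt (by omega)
      rw [h0]
      by_cases hjk : j = k
      · subst hjk
        rw [if_pos (by omega), if_pos (by omega), if_neg (by omega),
          show j + 1 - (j + 1) = j - j by omega]
        ring
      · rw [if_neg (by omega), if_neg (by omega), if_neg (by omega)]
        ring

section
variable {ι : Type*} [DecidableEq ι]

omit [DecidableEq ι] in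
theorem natDegree_prod_finset (b : ι → ℝ) (T : Finset ι) :
    (∏ k ∈ T, (X - C (b k))).natDegree = T.card := by
  rw [natDegree_prod_of_monic _ _ fun i _ => monic_X_sub_C _]
  simp

theorem UP_eq_had (b : ι → ℝ) (w : ℕ → ℝ) (T : Finset ι) (s : ℕ) :
    UP b w T s = had T.card (∏ k ∈ T, (X - C (b k))) (fun j => w (s + j)) := by
  induction T using Finset.induction generalizing s with
  | empty =>
    rw [UP_empty]
    ext j
    rw [coeff_had]
    rcases j with _ | j
    · simp
    · simp
  | insert k T hk ih =>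
    rw [UP_insert _ _ hk, Finset.card_insert_of_notMem hk, Finset.prod_insert hk,
      had_mul (natDegree_prod_finset b T).le, ih, ih]
    congr 3
    funext j
    congr 1
    omega

theorem fpoly_eq_had (a : ι → ℝ) (w : ℕ → ℝ) (S : Finset ι) :
    fpoly a w S = had (S.card + 1) ((X + C (∑ i ∈ S, a i)) * ∏ k ∈ S, (X - C (a k))) w := by
  have h1 : (X + C (∑ i ∈ S, a i)) = X - C (-(∑ i ∈ S, a i)) := by
    rw [map_neg]; ring
  rw [h1, had_mul (natDegree_prod_finset a S).le, fpoly, UP_eq_had, UP_eq_had]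
  have h2 : (fun j => w (0 + j)) = w := by funext j; rw [zero_add]
  have h3 : (fun j => w (1 + j)) = fun j => w (j + 1) := by funext j; rw [add_comm]
  rw [h2, h3, map_neg]
  ring

end

/-- the property of the sequence `w` that matters -/
def Good (N : ℕ) (w : ℕ → ℝ) : Prop :=
  ∀ s : Multiset ℝ, s.card = N + 1 → (∀ x ∈ s, 0 ≤ x) →
    Stab (N + 2) ((had (N + 2) ((X + C s.sum) * (s.map fun x => X - C x).prod) w).map
      (algebraMap ℝ ℂ))

theorem good_wseq {N : ℕ} {G : ℝ[X]} (hG : G.natDegree ≤ N + 2) (h0 : G.coeff (N + 1) = 0)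
    (hG0 : G ≠ 0) (hreal : ZF (G.map (algebraMap ℝ ℂ))) : Good N (wseq (N + 2) G) := by
  intro s hs hpos
  obtain ⟨a, rfl⟩ := exists_fin_enum hs
  have ha : ∀ i, 0 ≤ a i := fun i =>
    hpos _ (Multiset.mem_map.2 ⟨i, Finset.mem_univ i, rfl⟩)
  have h1 := stab_all hG h0 hG0 hreal a ha
  rw [fpoly_eq_had, Finset.card_univ, Fintype.card_fin] at h1
  rw [Multiset.map_map]
  exact h1

theorem had_congr (m : ℕ) (H : ℝ[X]) {w w' : ℕ → ℝ} (h : ∀ j ≤ m, w j = w' j) :
    had m H w = had m H w' := by
  ext j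
  rw [coeff_had, coeff_had]
  split_ifs with hj
  · rw [h _ (Nat.sub_le _ _)]
  · rfl

theorem Good.congr {N : ℕ} {w w' : ℕ → ℝ} (hw : Good N w) (h : ∀ j ≤ N + 2, w j = w' j) :
    Good N w' := by
  intro s hs hpos
  rw [← had_congr _ _ h]
  exact hw s hs hpos

theorem sum_coeff_aux (s : Multiset ℝ) (x : ℝ) :
    ((X - C x) * (s.map fun x => X - C x).prod).coeff s.card = -(x + s.sum) := by
  have h := multiset_prod_X_sub_C_coeff_card_pred (x ::ₘ s) (by simp)
  simpa using h

/-- at least `N + 1` nonnegative roots -/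
theorem Good.stab_had {N : ℕ} {w : ℕ → ℝ} (hw : Good N w) {H : ℝ[X]} (hs : H.Splits)
    (hd : H.natDegree = N + 2) (hc : H.coeff (N + 1) = 0)
    (hcount : N + 1 ≤ (H.roots.filter (fun x => 0 ≤ x)).card) :
    Stab (N + 2) ((had (N + 2) H w).map (algebraMap ℝ ℂ)) := by
  obtain ⟨s, hs1, hs2⟩ := exists_sub_card hcount
  have hs3 : s ≤ H.roots := hs1.trans (Multiset.filter_le _ _)
  obtain ⟨u, hu⟩ := Multiset.le_iff_exists_add.1 hs3
  have hcard : H.roots.card = N + 2 := by rw [← hs.natDegree_eq_card_roots, hd]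
  have hu1 : u.card = 1 := by
    rw [hu, Multiset.card_add, hs2] at hcard; omega
  obtain ⟨x, rfl⟩ := Multiset.card_eq_one.1 hu1
  have hpos : ∀ y ∈ s, 0 ≤ y := fun y hy => (Multiset.mem_filter.1 (Multiset.mem_of_le hs1 hy)).2
  have hH : H = C H.leadingCoeff * ((X - C x) * (s.map fun x => X - C x).prod) := by
    conv_lhs => rw [hs.eq_prod_roots, hu]
    simp only [Multiset.map_add, Multiset.map_singleton, Multiset.prod_add,
      Multiset.prod_singleton]
    ring
  have hlc : H.leadingCoeff ≠ 0 := by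
    rw [Ne, leadingCoeff_eq_zero]
    rintro rfl
    simp at hd
  have hx : x = - s.sum := by
    have h1 : H.coeff (N + 1) = H.leadingCoeff * (-(x + s.sum)) := by
      conv_lhs => rw [hH, coeff_C_mul, ← hs2, sum_coeff_aux]
    rw [hc] at h1
    rcases mul_eq_zero.1 h1.symm with h | h
    · exact absurd h hlc
    · linarith
  have hH2 : H = C H.leadingCoeff * ((X + C s.sum) * (s.map fun x => X - C x).prod) := by
    conv_lhs => rw [hH, hx]
    rw [map_neg]; ring
  rw [hH2, had_C_mul, Polynomial.map_mul, map_C]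
  exact stab_C_mul (hw s hs2 hpos) _

/-- degenerate case: degree at most `N`, all roots nonnegative -/
theorem Good.stab_had_low {N : ℕ} {w : ℕ → ℝ} (hw : Good N w) {H : ℝ[X]} (hs : H.Splits)
    (hd : H.natDegree ≤ N) (hpos : ∀ x ∈ H.roots, 0 ≤ x) :
    Stab (N + 2) ((had (N + 2) H w).map (algebraMap ℝ ℂ)) := by
  set k := H.natDegree with hk
  obtain ⟨r, hr⟩ : ∃ r, N = k + r := ⟨N - k, by omega⟩
  set σ : ℝ := H.roots.sum with hσ
  have hσ0 : 0 ≤ σ := Multiset.sum_nonneg hpos
  have hcard : H.roots.card = k := by rw [← hs.natDegree_eq_card_roots]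
  set Q : ℝ[X][X] := H.map C * (1 - C X * X) ^ (r + 1) *
    (C (C σ * X + C ((r : ℝ) + 1)) + C X * X) with hQ
  have hQs : ∀ s : ℝ, Q.map (evalRingHom s)
      = H * (1 - C s * X) ^ (r + 1) * (C (σ * s + (r + 1)) + C s * X) := by
    intro s
    have h1 : (evalRingHom s).comp (C : ℝ →+* ℝ[X]) = RingHom.id ℝ := by
      ext x; simp
    rw [hQ]
    simp only [Polynomial.map_mul, Polynomial.map_sub, Polynomial.map_pow, Polynomial.map_map,
      map_C, map_X, Polynomial.map_one, coe_evalRingHom, eval_X, eval_add, eval_mul,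
      eval_C, Polynomial.map_add, h1, Polynomial.map_id]
  have hQ0 : Q.map (evalRingHom 0) = C ((r : ℝ) + 1) * H := by
    rw [hQs]; simp; ring
  have hfull : ∀ s : ℝ, 0 < s → Stab (N + 2) ((had (N + 2) (Q.map (evalRingHom s)) w).map
      (algebraMap ℝ ℂ)) := by
    intro s hs0
    have h1 : Q.map (evalRingHom s) = C (H.leadingCoeff * (-s) ^ (r + 1) * s) *
        ((X + C (H.roots + Multiset.replicate (r + 1) (1 / s)).sum) *
          ((H.roots + Multiset.replicate (r + 1) (1 / s)).map fun x => X - C x).prod) := by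
      have hH : H = C H.leadingCoeff * (H.roots.map fun x => X - C x).prod := hs.eq_prod_roots
      have e1 : (1 - C s * X : ℝ[X]) = C (-s) * (X - C (1 / s)) := by
        rw [mul_sub, ← C_mul, show -s * (1 / s) = -1 by field_simp]
        simp only [map_neg, map_one]; ring
      have e2 : (C (σ * s + (r + 1)) + C s * X : ℝ[X])
          = C s * (X + C (σ + (r + 1) * (1 / s))) := by
        rw [mul_add, ← C_mul, show s * (σ + (r + 1) * (1 / s)) = σ * s + (r + 1) by
          field_simp]
        ring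
      rw [hQs, e1, e2]
      conv_lhs => rw [hH]
      rw [Multiset.sum_add, Multiset.map_add, Multiset.prod_add, Multiset.map_replicate,
        Multiset.prod_replicate, Multiset.sum_replicate, mul_pow, nsmul_eq_mul, ← hσ]
      push_cast
      simp only [map_mul, map_pow]
      ring
    rw [h1, had_C_mul, Polynomial.map_mul, map_C]
    apply stab_C_mul
    apply hw
    · rw [Multiset.card_add, Multiset.card_replicate, hcard]; omega
    · intro x hx
      rcases Multiset.mem_add.1 hx with hx | hx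
      · exact hpos x hx
      · rw [Multiset.eq_of_mem_replicate hx]; positivity
  have hcont : ∀ z : ℂ, Continuous fun s : ℝ =>
      ((had (N + 2) (Q.map (evalRingHom s)) w).map (algebraMap ℝ ℂ)).eval z := by
    intro z
    have h1 : ∀ s : ℝ, had (N + 2) (Q.map (evalRingHom s)) w
        = (∑ j ∈ Finset.range (N + 2 + 1), C (Q.coeff j * C (w (N + 2 - j))) * X ^ j
            : ℝ[X][X]).map (evalRingHom s) := by
      intro s
      rw [had, Polynomial.map_sum]
      refine Finset.sum_congr rfl fun j _ => ?_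
      simp
    simp only [h1]
    exact continuous_param _ z
  have hlim : Stab (N + 2) ((had (N + 2) (Q.map (evalRingHom 0)) w).map (algebraMap ℝ ℂ)) := by
    intro z v hzim
    have h1 : Filter.Tendsto (fun s : ℝ =>
        ‖((had (N + 2) (Q.map (evalRingHom s)) w).map (algebraMap ℝ ℂ)).eval v‖)
        (nhdsWithin 0 (Set.Ioi 0)) _ := ((hcont v).norm.tendsto 0).mono_left nhdsWithin_le_nhds
    have h2 : Filter.Tendsto (fun s : ℝ => (1 + ‖v - z‖ / z.im) ^ (N + 2) *
        ‖((had (N + 2) (Q.map (evalRingHom s)) w).map (algebraMap ℝ ℂ)).eval z‖)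
        (nhdsWithin 0 (Set.Ioi 0)) _ :=
      (((hcont z).norm.tendsto 0).mono_left nhdsWithin_le_nhds).const_mul _
    refine le_of_tendsto_of_tendsto h1 h2 ?_
    filter_upwards [self_mem_nhdsWithin] with s hs
    exact hfull s hs z v hzim
  have hr0 : (r : ℝ) + 1 ≠ 0 := by positivity
  have h2 : had (N + 2) H w = C (((r : ℝ) + 1)⁻¹) * had (N + 2) (Q.map (evalRingHom 0)) w := by
    rw [hQ0, had_C_mul, ← mul_assoc, ← C_mul, inv_mul_cancel₀ hr0, C_1, one_mul]
  rw [h2, Polynomial.map_mul, map_C]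
  exact stab_C_mul hlim _

end Pool.Agent.W_MP_0cd67c_ag
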