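import Pool.Agent.W_MP_0cd67c_ag.Newton

/-!
The main inequality at real roots of `β`, partial fractions, and the generic case.
-/

namespace Pool.Agent.W_MP_0cd67c_ag

open Polynomial

variable {ι : Type*} [DecidableEq ι]

/-- the key inequality at a real root of `β = U_2(T)` -/
theorem main_ineq (T : Finset ι) (b : ι → ℝ) (hb : ∀ i ∈ T, 0 ≤ b i) (w : ℕ → ℝ)
    (hE : Stab (2 + T.card) (PS (2 + T.card) (fun j => (((1 - (j : ℝ)) * w j : ℝ) : ℂ)) 0))
    (hΨ : Stab T.card (PS T.card (fun j => ((w (j + 2) : ℝ) : ℂ)) 0))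
    (t : ℝ) (ht : U t b w T 2 = 0) :
    (t * U t b w T 0 + (∑ i ∈ T, b i) * U t b w T 1) * (∑ k ∈ T, U t b w (T.erase k) 2) ≤ 0 := by
  set m : ι → ℝ := fun k => U t b w (T.erase k) 2 with hm
  -- products are nonnegative
  have hprod : ∀ k ∈ T, ∀ l ∈ T, 0 ≤ m k * m l * (b k - b l) ^ 2 := by
    intro k hk l hl
    by_cases hkl : k = l
    · subst hkl; simp
    · apply mul_nonneg _ (sq_nonneg _)
      set T' := (T.erase k).erase l with hT'
      have hlk : l ∈ T.erase k := Finset.mem_erase.2 ⟨fun h => hkl h.symm, hl⟩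
      have hkl' : k ∈ T.erase l := Finset.mem_erase.2 ⟨hkl, hk⟩
      have hT'' : (T.erase l).erase k = T' := by
        rw [hT', Finset.erase_right_comm]
      have hcard : T.card = 2 + T'.card := by
        have h1 := Finset.card_erase_of_mem hlk
        have h2 := Finset.card_erase_of_mem hk
        have h3 : 0 < (T.erase k).card := Finset.card_pos.2 ⟨l, hlk⟩
        have h4 : 0 < T.card := Finset.card_pos.2 ⟨k, hk⟩
        rw [← hT'] at h1
        omega
      have hN := newton_U T' (c := fun j => w (j + 2)) (by rw [← hcard]; exact hΨ) t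
        (b := b) (fun i hi => hb i (Finset.mem_of_mem_erase (Finset.mem_of_mem_erase hi)))
      rw [U_shift, U_shift, U_shift] at hN
      set e0 := U t b w T' 2
      set e1 := U t b w T' 3
      set e2 := U t b w T' 4
      have hN' : e0 * e2 ≤ e1 ^ 2 := hN
      have h1 : m k = t * e0 - b l * e1 := by
        rw [hm]
        exact U_erase t b w hlk 2
      have h2 : m l = t * e0 - b k * e1 := by
        have := U_erase t b w hkl' 2
        rw [hT''] at this
        exact this
      have h3 : U t b w (T.erase k) 3 = t * e1 - b l * e2 := U_erase t b w hlk 3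
      have h4 : U t b w T 2 = t * m k - b k * U t b w (T.erase k) 3 := U_erase t b w hk 2
      rw [ht, h3, h1] at h4
      have h5 : m k * m l = b k * b l * (e1 ^ 2 - e0 * e2) := by
        rw [h1, h2]
        linear_combination (-e0) * h4
      rw [h5]
      have := hb k hk
      have := hb l hl
      have : 0 ≤ e1 ^ 2 - e0 * e2 := by linarith
      positivity
  have hCS : (∑ k ∈ T, b k * m k) ^ 2 ≤ (∑ k ∈ T, b k ^ 2 * m k) * ∑ k ∈ T, m k := by
    have h1 : 0 ≤ ∑ k ∈ T, ∑ l ∈ T, m k * m l * (b k - b l) ^ 2 :=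
      Finset.sum_nonneg fun k hk => Finset.sum_nonneg fun l hl => hprod k hk l hl
    have h2 : ∑ k ∈ T, ∑ l ∈ T, m k * m l * (b k - b l) ^ 2
        = 2 * ((∑ k ∈ T, b k ^ 2 * m k) * ∑ k ∈ T, m k) - 2 * (∑ k ∈ T, b k * m k) ^ 2 := by
      have e1 : ∀ k ∈ T, ∑ l ∈ T, m k * m l * (b k - b l) ^ 2
          = (b k ^ 2 * m k) * (∑ l ∈ T, m l) - 2 * ((b k * m k) * ∑ l ∈ T, b l * m l)
            + m k * ∑ l ∈ T, b l ^ 2 * m l := by
        intro k _
        rw [Finset.mul_sum, Finset.mul_sum, Finset.mul_sum, Finset.mul_sum,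
          ← Finset.sum_sub_distrib, ← Finset.sum_add_distrib]
        refine Finset.sum_congr rfl fun l _ => ?_
        ring
      rw [Finset.sum_congr rfl e1, Finset.sum_add_distrib, Finset.sum_sub_distrib,
        ← Finset.mul_sum, ← Finset.sum_mul, ← Finset.sum_mul, ← Finset.sum_mul]
      ring
    linarith
  -- Newton for E
  have hN := newton_U T (c := fun j => (1 - (j : ℝ)) * w j) hE t (b := b) hb
  rw [U_euler, U_euler, U_euler] at hN
  have e1 : (1 - ((1 : ℕ) : ℝ)) * U t b w T 1 + ∑ k ∈ T, b k * U t b w (T.erase k) (1 + 1)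
      = ∑ k ∈ T, b k * m k := by
    push_cast; rw [sub_self, zero_mul, zero_add]
  have e2 : (1 - ((2 : ℕ) : ℝ)) * U t b w T 2 + ∑ k ∈ T, b k * U t b w (T.erase k) (2 + 1)
      = t * ∑ k ∈ T, m k := by
    rw [ht, mul_zero, zero_add, Finset.mul_sum]
    refine Finset.sum_congr rfl fun k hk => ?_
    have h4 : U t b w T 2 = t * m k - b k * U t b w (T.erase k) 3 := U_erase t b w hk 2
    rw [ht] at h4
    show b k * U t b w (T.erase k) 3 = t * m k
    linarith
  have e0 : t * ((1 - ((0 : ℕ) : ℝ)) * U t b w T 0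
      + ∑ k ∈ T, b k * U t b w (T.erase k) (0 + 1))
      = (t * U t b w T 0 + (∑ i ∈ T, b i) * U t b w T 1) + ∑ k ∈ T, b k ^ 2 * m k := by
    rw [mul_add, Finset.mul_sum, Finset.sum_mul]
    have : ∑ k ∈ T, t * (b k * U t b w (T.erase k) (0 + 1))
        = ∑ k ∈ T, (b k * U t b w T 1 + b k ^ 2 * m k) := by
      refine Finset.sum_congr rfl fun k hk => ?_
      have h4 : U t b w T 1 = t * U t b w (T.erase k) 1 - b k * m k := U_erase t b w hk 1
      show t * (b k * U t b w (T.erase k) 1) = _
      rw [h4]; ring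
    rw [this, Finset.sum_add_distrib]
    push_cast
    ring
  rw [e1, e2] at hN
  set F := t * U t b w T 0 + (∑ i ∈ T, b i) * U t b w T 1
  set E0 := (1 - ((0 : ℕ) : ℝ)) * U t b w T 0 + ∑ k ∈ T, b k * U t b w (T.erase k) (0 + 1)
  have h5 : E0 * (t * ∑ k ∈ T, m k) = (F + ∑ k ∈ T, b k ^ 2 * m k) * ∑ k ∈ T, m k := by
    rw [← e0]; ring
  rw [h5] at hN
  show F * ∑ k ∈ T, m k ≤ 0
  nlinarith

/-- Partial fractions: a Nevanlinna-type criterion. -/
theorem im_div_pos {β F : ℝ[X]} {N : ℕ} (hβ : β.natDegree = N) (hlc : 0 < β.leadingCoeff)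
    (hsep : β.Separable) (hreal : ZF (β.map (algebraMap ℝ ℂ)))
    (hF : F.natDegree ≤ N + 1) (hFl : 0 < F.coeff (N + 1))
    (hsign : ∀ t : ℝ, β.eval t = 0 → F.eval t * (derivative β).eval t ≤ 0)
    (z : ℂ) (hz : 0 < z.im) :
    0 < ((F.map (algebraMap ℝ ℂ)).eval z / (β.map (algebraMap ℝ ℂ)).eval z).im := by
  classical
  have hβ0 : β ≠ 0 := by
    rintro rfl; simp at hlc
  -- all roots real
  have hsp : β.Splits := by
    have h1 : (β.map (algebraMap ℝ ℂ)).Splits := IsAlgClosed.splits _
    refine Splits.of_splits_map (algebraMap ℝ ℂ) h1 ?_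
    intro r hr
    have hr1 : r.im ≤ 0 := hreal.root_im hr
    have hr2 : (β.map (algebraMap ℝ ℂ)).eval r = 0 := isRoot_of_mem_roots hr
    have hr3 : (β.map (algebraMap ℝ ℂ)).eval ((starRingEnd ℂ) r) = 0 := by
      rw [eval_map_algebraMap] at hr2 ⊢
      rw [Polynomial.aeval_conj, hr2, map_zero]
    have hr4 : 0 ≤ r.im := by
      by_contra hc
      push Not at hc
      exact hreal ((starRingEnd ℂ) r) (by simpa using hc) hr3
    have hr5 : r.im = 0 := le_antisymm hr1 hr4
    refine ⟨r.re, ?_⟩
    apply Complex.ext <;> simp [hr5]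
  set S : Finset ℝ := β.roots.toFinset with hS
  have hnodup : β.roots.Nodup := nodup_roots hsep
  have hScard : S.card = N := by
    rw [hS, Multiset.toFinset_card_of_nodup hnodup, ← hβ]
    exact hsp.natDegree_eq_card_roots.symm
  have hβprod : β = C β.leadingCoeff * Lagrange.nodal S id := by
    conv_lhs => rw [hsp.eq_prod_roots]
    congr 1
    rw [Lagrange.nodal, Finset.prod, hS, Multiset.toFinset_val, hnodup.dedup]
    rfl
  set lc := β.leadingCoeff with hlcdef
  have hcoeffN : β.coeff N = lc := by rw [hlcdef, leadingCoeff, hβ]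
  set κ : ℝ := F.coeff (N + 1) / lc with hκ
  have hκpos : 0 < κ := div_pos hFl hlc
  set G1 : ℝ[X] := F - C κ * (X * β) with hG1
  set c : ℝ := G1.coeff N / lc with hc
  set G : ℝ[X] := G1 - C c * β with hG
  have hG1deg : G1.natDegree ≤ N := by
    rw [natDegree_le_iff_coeff_eq_zero]
    intro i hi
    rcases Nat.lt_or_ge (N + 1) i with h | h
    · rw [hG1, coeff_sub, coeff_eq_zero_of_natDegree_lt (lt_of_le_of_lt hF h), coeff_C_mul]
      obtain ⟨j, rfl⟩ : ∃ j, i = j + 1 := ⟨i - 1, by omega⟩
      rw [coeff_X_mul, coeff_eq_zero_of_natDegree_lt (by omega)]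
      ring
    · have : i = N + 1 := by omega
      subst this
      rw [hG1, coeff_sub, coeff_C_mul, coeff_X_mul, hcoeffN, hκ]
      field_simp
      ring
  have hGdeg : G.degree < (S.card : WithBot ℕ) := by
    rw [hScard, degree_lt_iff_coeff_zero]
    intro i hi
    rcases Nat.lt_or_ge N i with h | h
    · rw [hG, coeff_sub, coeff_C_mul, coeff_eq_zero_of_natDegree_lt (lt_of_le_of_lt hG1deg h),
        coeff_eq_zero_of_natDegree_lt (by omega)]
      ring
    · have : i = N := by omega
      subst this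
      rw [hG, coeff_sub, coeff_C_mul, hcoeffN, hc]
      field_simp
      ring
  -- evaluations at roots
  have hroot : ∀ r ∈ S, β.eval r = 0 := by
    intro r hr
    exact isRoot_of_mem_roots (Multiset.mem_toFinset.1 hr)
  have hGr : ∀ r ∈ S, G.eval r = F.eval r := by
    intro r hr
    rw [hG, hG1]
    simp [hroot r hr]
  -- complex version
  set φ := algebraMap ℝ ℂ with hφ
  have hznode : ∀ r ∈ S, z ≠ ((r : ℝ) : ℂ) := by
    intro r _ h
    rw [h] at hz; simp at hz
  have hinj : Set.InjOn (fun r : ℝ => (r : ℂ)) S := fun a _ b _ h => Complex.ofReal_injective h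
  have hGdeg' : (G.map φ).degree < (S.card : WithBot ℕ) :=
    lt_of_le_of_lt degree_map_le hGdeg
  have hGint : G.map φ = Lagrange.interpolate S (fun r : ℝ => (r : ℂ))
      (fun r => (G.map φ).eval (r : ℂ)) := Lagrange.eq_interpolate hinj hGdeg'
  have hnod : (β.map φ).eval z = (lc : ℂ) * (Lagrange.nodal S (fun r : ℝ => (r : ℂ))).eval z := by
    rw [hβprod, Polynomial.map_mul, map_C, eval_mul, eval_C]
    congr 1
    rw [Lagrange.eval_nodal, Lagrange.nodal, Polynomial.map_prod, eval_prod]
    refine Finset.prod_congr rfl fun r _ => ?_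
    simp [φ]
  have hnodz : (Lagrange.nodal S (fun r : ℝ => (r : ℂ))).eval z ≠ 0 :=
    Lagrange.eval_nodal_not_at_node hznode
  have hlc0 : (lc : ℂ) ≠ 0 := by exact_mod_cast hlc.ne'
  have hβz : (β.map φ).eval z ≠ 0 := hreal z hz
  -- derivative at the nodes
  have hder : ∀ r ∈ S, (Lagrange.nodalWeight S (fun r : ℝ => (r : ℂ)) r : ℂ)
      = ((lc / (derivative β).eval r : ℝ) : ℂ) := by
    intro r hr
    rw [Lagrange.nodalWeight_eq_eval_derivative_nodal hr]
    have h1 : (derivative β).eval r = lc * (derivative (Lagrange.nodal S id)).eval r := by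
      conv_lhs => rw [hβprod]
      simp
    have h2 : (derivative (Lagrange.nodal S (fun r : ℝ => (r : ℂ)))).eval (r : ℂ)
        = (((derivative (Lagrange.nodal S id)).eval r : ℝ) : ℂ) := by
      have : Lagrange.nodal S (fun r : ℝ => (r : ℂ)) = (Lagrange.nodal S id).map φ := by
        rw [Lagrange.nodal, Lagrange.nodal, Polynomial.map_prod]
        refine Finset.prod_congr rfl fun r _ => ?_
        simp [φ]
      rw [this, derivative_map]
      exact eval_map_apply (f := φ) r
    rw [h2, h1]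
    have hne : (derivative (Lagrange.nodal S id)).eval r ≠ 0 := by
      intro h0
      have := hsep.eval₂_derivative_ne_zero (RingHom.id ℝ) (x := r) (by simpa using hroot r hr)
      apply this
      simp only [eval₂_id]
      rw [h1, h0, mul_zero]
    push_cast
    field_simp
  have hGz : (G.map φ).eval z = (Lagrange.nodal S (fun r : ℝ => (r : ℂ))).eval z *
      ∑ r ∈ S, ((lc / (derivative β).eval r : ℝ) : ℂ) * (z - (r : ℂ))⁻¹ * ((F.eval r : ℝ) : ℂ) := by
    rw [hGint, Lagrange.eval_interpolate_not_at_node _ hznode]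
    congr 1
    refine Finset.sum_congr rfl fun r hr => ?_
    rw [hder r hr]
    congr 1
    rw [← hGr r hr]
    exact eval_map_apply (f := φ) r
  have hFz : (F.map φ).eval z = (κ * z + c) * (β.map φ).eval z + (G.map φ).eval z := by
    rw [hG, hG1]
    simp [φ]
    ring
  have hquot : (F.map φ).eval z / (β.map φ).eval z = κ * z + c +
      ∑ r ∈ S, (((F.eval r / (derivative β).eval r : ℝ)) : ℂ) * (z - (r : ℂ))⁻¹ := by
    rw [hFz, add_div, mul_div_cancel_right₀ _ hβz]
    congr 1
    rw [hGz, hnod, mul_comm (lc : ℂ), mul_div_mul_left _ _ hnodz, Finset.sum_div]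
    refine Finset.sum_congr rfl fun r _ => ?_
    push_cast
    field_simp
  rw [hquot, Complex.add_im, Complex.im_sum]
  have h1 : ((κ : ℂ) * z + c).im = κ * z.im := by simp
  rw [h1]
  have h2 : 0 ≤ ∑ r ∈ S, ((((F.eval r / (derivative β).eval r : ℝ)) : ℂ) * (z - (r : ℂ))⁻¹).im := by
    apply Finset.sum_nonneg
    intro r hr
    rw [Complex.im_ofReal_mul, Complex.inv_im]
    have h3 : (z - (r : ℂ)).im = z.im := by simp
    rw [h3]
    have h4 : F.eval r / (derivative β).eval r ≤ 0 := by
      have h5 := hsign r (hroot r hr)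
      by_cases h6 : (derivative β).eval r = 0
      · rw [h6]; simp
      · have h7 : F.eval r / (derivative β).eval r
            = (F.eval r * (derivative β).eval r) / ((derivative β).eval r) ^ 2 := by
          field_simp
        rw [h7]
        exact div_nonpos_of_nonpos_of_nonneg h5 (sq_nonneg _)
    have h5 : -z.im / Complex.normSq (z - r) ≤ 0 := by
      rw [neg_div]
      have : 0 ≤ z.im / Complex.normSq (z - r) := div_nonneg hz.le (Complex.normSq_nonneg _)
      linarith
    exact mul_nonneg_of_nonpos_of_nonpos h4 h5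
  have : 0 < κ * z.im := mul_pos hκpos hz
  linarith

end Pool.Agent.W_MP_0cd67c_ag
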