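import Mathlib

/-!
Zero-free polynomials in the open upper half-plane: Laguerre's theorem and closedness.
-/

namespace Pool.Agent.W_MP_0cd67c_ag

open Polynomial

/-- zero-free in the open upper half-plane -/
def ZF (p : ℂ[X]) : Prop := ∀ z : ℂ, 0 < z.im → p.eval z ≠ 0

/-- a quantitative closed form of zero-freeness -/
def Stab (k : ℕ) (p : ℂ[X]) : Prop :=
  ∀ z w : ℂ, 0 < z.im → ‖p.eval w‖ ≤ (1 + ‖w - z‖ / z.im) ^ k * ‖p.eval z‖

theorem ZF.ne_zero {p : ℂ[X]} (h : ZF p) : p ≠ 0 := by
  rintro rfl
  exact h Complex.I (by simp) (by simp)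

theorem ZF.root_im {p : ℂ[X]} (h : ZF p) {r : ℂ} (hr : r ∈ p.roots) : r.im ≤ 0 := by
  by_contra hc
  push Not at hc
  exact h r hc (isRoot_of_mem_roots hr)

theorem ZF.stab {p : ℂ[X]} (h : ZF p) {k : ℕ} (hk : p.natDegree ≤ k) : Stab k p := by
  intro z w hz
  have hsp : p.Splits := IsAlgClosed.splits p
  have hev : ∀ u : ℂ, p.eval u = p.leadingCoeff * (p.roots.map fun r => u - r).prod := by
    intro u
    conv_lhs => rw [hsp.eq_prod_roots]
    simp [eval_multiset_prod]
  have hcard : p.roots.card ≤ k := (card_roots' p).trans hk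
  set c : ℝ := 1 + ‖w - z‖ / z.im with hc
  have hc1 : 1 ≤ c := by
    have : 0 ≤ ‖w - z‖ / z.im := by positivity
    linarith
  have key : ∀ s : Multiset ℂ, (∀ r ∈ s, r.im ≤ 0) →
      ‖(s.map fun r => w - r).prod‖ ≤ c ^ s.card * ‖(s.map fun r => z - r).prod‖ := by
    intro s
    induction s using Multiset.induction with
    | empty => simp
    | cons a s ih =>
      intro hs
      have h1 := ih fun r hr => hs r (Multiset.mem_cons_of_mem hr)
      have ha : a.im ≤ 0 := hs a (Multiset.mem_cons_self a s)
      have h2 : z.im ≤ ‖z - a‖ := by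
        have := Complex.abs_im_le_norm (z - a)
        rw [Complex.sub_im] at this
        have h3 := le_abs_self (z.im - a.im)
        linarith
      have h3 : ‖w - a‖ ≤ c * ‖z - a‖ := by
        have h4 : ‖w - a‖ ≤ ‖w - z‖ + ‖z - a‖ := by
          have := norm_add_le (w - z) (z - a)
          simpa using this
        have h5 : ‖w - z‖ ≤ ‖w - z‖ / z.im * ‖z - a‖ := by
          rw [div_mul_eq_mul_div, le_div_iff₀ hz]
          exact mul_le_mul_of_nonneg_left h2 (norm_nonneg _)
        rw [hc]; linarith
      simp only [Multiset.map_cons, Multiset.prod_cons, Multiset.card_cons, norm_mul]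
      calc ‖w - a‖ * ‖(s.map fun r => w - r).prod‖
          ≤ (c * ‖z - a‖) * (c ^ s.card * ‖(s.map fun r => z - r).prod‖) := by gcongr
        _ = c ^ (s.card + 1) * (‖z - a‖ * ‖(s.map fun r => z - r).prod‖) := by ring
  have h1 := key p.roots fun r hr => h.root_im hr
  rw [hev w, hev z, norm_mul, norm_mul]
  calc ‖p.leadingCoeff‖ * ‖(p.roots.map fun r => w - r).prod‖
      ≤ ‖p.leadingCoeff‖ * (c ^ p.roots.card * ‖(p.roots.map fun r => z - r).prod‖) := by
        gcongr
    _ ≤ ‖p.leadingCoeff‖ * (c ^ k * ‖(p.roots.map fun r => z - r).prod‖) := by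
        gcongr
    _ = _ := by ring

theorem Stab.zf {k : ℕ} {p : ℂ[X]} (h : Stab k p) (hp : p ≠ 0) : ZF p := by
  intro z hz h0
  apply hp
  apply Polynomial.funext
  intro w
  have := h z w hz
  rw [h0, norm_zero, mul_zero] at this
  simpa using this

theorem stab_zero (k : ℕ) : Stab k 0 := by
  intro z w _; simp

/-- Laguerre's theorem for the upper half-plane. -/
theorem laguerre {p : ℂ[X]} (h : ZF p) {k : ℕ} (hk : p.natDegree ≤ k) (hk1 : 1 ≤ k)
    {ξ : ℂ} (hξ : 0 < ξ.im) : ZF (C (k : ℂ) * p - (X - C ξ) * derivative p) := by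
  intro z hz h0
  have hpz : p.eval z ≠ 0 := h z hz
  simp only [eval_sub, eval_mul, eval_C, eval_X] at h0
  have hzξ : z - ξ ≠ 0 := by
    intro h1
    rw [h1, zero_mul, sub_zero] at h0
    have hk0 : (k : ℂ) ≠ 0 := by exact_mod_cast (by omega : k ≠ 0)
    exact (mul_ne_zero hk0 hpz) h0
  have hsp : p.Splits := IsAlgClosed.splits p
  have hS := hsp.eval_derivative_div_eval_of_ne_zero hpz
  set S : ℂ := (p.roots.map fun r => 1 / (z - r)).sum with hSdef
  have hk2 : (k : ℂ) = (z - ξ) * S := by
    rw [← hS]
    field_simp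
    linear_combination h0
  set u : ℂ := (z - ξ)⁻¹ with hu
  have hu0 : u ≠ 0 := inv_ne_zero hzξ
  have hS2 : S = k * u := by
    rw [hk2, hu]; field_simp
  have hcard : p.roots.card ≤ k := (card_roots' p).trans hk
  -- imaginary part of an inverse
  have him : ∀ v : ℂ, v ≠ 0 → (v⁻¹).im = - v.im * (Complex.normSq v⁻¹) := by
    intro v hv
    have : Complex.normSq v ≠ 0 := by simpa using hv
    rw [Complex.inv_im, Complex.normSq_inv]
    field_simp
  set y := z.im with hy
  have key : ∀ s : Multiset ℂ, (∀ r ∈ s, r.im ≤ 0) →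
      2 * y * ((s.map fun r => 1 / (z - r)).sum * (starRingEnd ℂ) u).re
        + ((s.map fun r => 1 / (z - r)).sum).im - s.card * (y * Complex.normSq u) ≤ 0 := by
    intro s
    induction s using Multiset.induction with
    | empty => simp
    | cons a s ih =>
      intro hs
      have h1 := ih fun r hr => hs r (Multiset.mem_cons_of_mem hr)
      have ha : a.im ≤ 0 := hs a (Multiset.mem_cons_self a s)
      have hza : z - a ≠ 0 := by
        intro h2
        have : z.im = a.im := by
          have := congrArg Complex.im h2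
          simp at this; linarith
        rw [← hy] at this
        linarith
      set v : ℂ := (z - a)⁻¹ with hv
      have h2 : v.im = -(y - a.im) * Complex.normSq v := by
        rw [hv, him _ hza, Complex.sub_im]
      have h3 : y * Complex.normSq v + v.im ≤ 0 := by
        rw [h2]
        have := Complex.normSq_nonneg v
        nlinarith
      have h4 : 2 * (v * (starRingEnd ℂ) u).re ≤ Complex.normSq v + Complex.normSq u := by
        have := Complex.normSq_nonneg (v - u)
        rw [Complex.normSq_sub] at this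
        linarith
      have h5 : 2 * y * (v * (starRingEnd ℂ) u).re + v.im - y * Complex.normSq u ≤ 0 := by
        nlinarith
      simp only [Multiset.map_cons, Multiset.sum_cons, Multiset.card_cons, add_mul,
        Complex.add_re, Complex.add_im, one_div, ← hv]
      simp only [one_div] at h1
      push_cast
      linarith
  have h1 := key p.roots fun r hr => h.root_im hr
  rw [← hSdef, hS2] at h1
  have h2 : ((k : ℂ) * u * (starRingEnd ℂ) u).re = k * Complex.normSq u := by
    rw [mul_assoc, Complex.mul_conj]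
    simp
  have h3 : ((k : ℂ) * u).im = k * u.im := by simp
  have h4 : u.im = -(y - ξ.im) * Complex.normSq u := by
    rw [hu, him _ hzξ, Complex.sub_im]
  rw [h2, h3, h4] at h1
  have h5 : 0 < Complex.normSq u := by simpa using hu0
  have h6 : (p.roots.card : ℝ) ≤ k := by exact_mod_cast hcard
  have h7 : (0 : ℝ) < k := by exact_mod_cast hk1
  have h8 : (p.roots.card : ℝ) * (y * Complex.normSq u) ≤ k * (y * Complex.normSq u) := by
    gcongr
  have h9 : 0 < k * (ξ.im * Complex.normSq u) := by positivity
  nlinarith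

end Pool.Agent.W_MP_0cd67c_ag
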