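import Pool.Agent.W_MP_0cd67c_ag.Core

/-!
All zero-sum real-rooted `G` (also of lower degree), and both signs.
-/

namespace Pool.Agent.W_MP_0cd67c_ag

open Polynomial

theorem splits_of_zf {β : ℝ[X]} (hreal : ZF (β.map (algebraMap ℝ ℂ))) : β.Splits := by
  have h1 : (β.map (algebraMap ℝ ℂ)).Splits := IsAlgClosed.splits _
  refine Splits.of_splits_map (algebraMap ℝ ℂ) h1 ?_
  intro r hr
  have hr1 : r.im ≤ 0 := hreal.root_im hr
  have hr2 : (β.map (algebraMap ℝ ℂ)).eval r = 0 := isRoot_of_mem_roots hr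
  have hr3 : (β.map (algebraMap ℝ ℂ)).eval ((starRingEnd ℂ) r) = 0 := by
    rw [eval_map_algebraMap] at hr2 ⊢
    rw [Polynomial.aeval_conj, hr2, map_zero]
  have hr4 : 0 ≤ r.im := by
    by_contra hc
    push Not at hc
    exact hreal ((starRingEnd ℂ) r) (by simpa using hc) hr3
  have hr5 : r.im = 0 := le_antisymm hr1 hr4
  refine ⟨r.re, ?_⟩
  apply Complex.ext <;> simp [hr5]

theorem stab_C_mul {k : ℕ} {p : ℂ[X]} (h : Stab k p) (c : ℂ) : Stab k (C c * p) := by
  intro z w hz
  have := h z w hz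
  simp only [eval_mul, eval_C, norm_mul]
  calc ‖c‖ * ‖p.eval w‖ ≤ ‖c‖ * ((1 + ‖w - z‖ / z.im) ^ k * ‖p.eval z‖) := by gcongr
    _ = _ := by ring

/-- enumerate the roots -/
theorem exists_fin_roots {G : ℝ[X]} {n : ℕ} (hs : G.Splits) (hd : G.natDegree = n) :
    ∃ x : Fin n → ℝ, G = C G.leadingCoeff * ∏ i, (X - C (x i)) := by
  obtain ⟨l, hl⟩ := Quot.exists_rep G.roots
  have hl' : (l : Multiset ℝ) = G.roots := hl
  have hlen : l.length = n := by
    have h1 : (l : Multiset ℝ).card = G.roots.card := by rw [hl']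
    rw [Multiset.coe_card] at h1
    rw [h1, ← hs.natDegree_eq_card_roots, hd]
  subst hlen
  refine ⟨fun i => l.get i, ?_⟩
  conv_lhs => rw [hs.eq_prod_roots]
  congr 1
  rw [← hl', Multiset.map_coe, Multiset.prod_coe, ← List.prod_ofFn]
  congr 1
  conv_lhs => rw [← List.ofFn_get l]
  rw [List.map_ofFn]
  rfl

variable {ι : Type*} [DecidableEq ι]

theorem UP_smul {K : Type*} [CommRing K] (b : ι → K) (w : ℕ → K) (c : K) (T : Finset ι) (s : ℕ) :
    UP b (fun j => c * w j) T s = C c * UP b w T s := by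
  induction T using Finset.induction generalizing s with
  | empty => rw [UP_empty, UP_empty, map_mul]
  | insert k T hk ih => rw [UP_insert _ _ hk, UP_insert _ _ hk, ih, ih]; ring

theorem UP_congr {K : Type*} [CommRing K] (b : ι → K) {w w' : ℕ → K} (T : Finset ι) (s : ℕ)
    (h : ∀ j, s ≤ j → j ≤ s + T.card → w j = w' j) : UP b w T s = UP b w' T s :=
  U_congr_seq _ _ _ _ fun j h1 h2 => by rw [h j h1 h2]

theorem fpoly_smul {K : Type*} [CommRing K] (a : ι → K) (w : ℕ → K) (c : K) (S : Finset ι) :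
    fpoly a (fun j => c * w j) S = C c * fpoly a w S := by
  rw [fpoly, fpoly, UP_smul, UP_smul]; ring

theorem fpoly_congr {K : Type*} [CommRing K] (a : ι → K) {w w' : ℕ → K} (S : Finset ι)
    (h : ∀ j, j ≤ S.card + 1 → w j = w' j) : fpoly a w S = fpoly a w' S := by
  rw [fpoly, fpoly, UP_congr a S 0 fun j _ h2 => h j (by omega),
    UP_congr a S 1 fun j _ h2 => h j (by omega)]

/-- full degree case -/
theorem stab_full {N : ℕ} {G : ℝ[X]} (hG : G.natDegree = N + 2) (h0 : G.coeff (N + 1) = 0)
    (hreal : ZF (G.map (algebraMap ℝ ℂ))) (a : Fin (N + 1) → ℝ) (ha : ∀ i, 0 ≤ a i) :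
    Stab (N + 2) ((fpoly a (wseq (N + 2) G) Finset.univ).map (algebraMap ℝ ℂ)) := by
  obtain ⟨x, hx⟩ := exists_fin_roots (splits_of_zf hreal) hG
  set c := G.leadingCoeff with hc
  have hc0 : c ≠ 0 := by
    rw [hc, Ne, leadingCoeff_eq_zero]
    rintro rfl
    simp at hG
  have hsum : ∑ i, x i = 0 := by
    have h1 : G.coeff (N + 1) = c * (- ∑ i, x i) := by
      conv_lhs => rw [hx, coeff_C_mul]
      rw [coeff_prod_pred]
    rw [h0] at h1
    have := mul_eq_zero.1 h1.symm
    rcases this with h | h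
    · exact absurd h hc0
    · linarith
  have h1 := core N x hsum a ha
  have h2 : ∀ j, wseq (N + 2) G j = c * wseq (N + 2) (∏ i, (X - C (x i))) j := by
    intro j
    rw [wseq, wseq]
    conv_lhs => rw [hx]
    rw [coeff_C_mul]; ring
  have h3 : fpoly a (wseq (N + 2) G) Finset.univ
      = C c * fpoly a (wseq (N + 2) (∏ i, (X - C (x i)))) Finset.univ := by
    rw [← fpoly_smul]
    exact fpoly_congr a _ fun j _ => h2 j
  rw [h3, Polynomial.map_mul, map_C]
  apply stab_C_mul
  apply h1.stab
  refine natDegree_map_le.trans ?_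
  rw [fpoly]
  refine (natDegree_add_le _ _).trans (max_le ?_ ?_)
  · refine natDegree_mul_le.trans ?_
    have := natDegree_UP_le a (wseq (N + 2) (∏ i, (X - C (x i)))) Finset.univ 0
    rw [Finset.card_univ, Fintype.card_fin] at this
    rw [natDegree_X]; omega
  · refine (natDegree_C_mul_le _ _).trans ?_
    have := natDegree_UP_le a (wseq (N + 2) (∏ i, (X - C (x i)))) Finset.univ 1
    rw [Finset.card_univ, Fintype.card_fin] at this
    omega

/-- the approximants of `G` of full degree, parameter version -/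
noncomputable def approx (G : ℝ[X]) (k r : ℕ) : ℝ[X][X] :=
  G.map C * (1 - C X * X) ^ r *
    (1 - C (X ^ 2 * C (-(X * G).coeff k / G.coeff k) + C (r : ℝ) * X) * X - C (X ^ 2) * X ^ 2)

theorem approx_zero (G : ℝ[X]) (k r : ℕ) : (approx G k r).map (evalRingHom 0) = G := by
  have : (evalRingHom 0).comp (C : ℝ →+* ℝ[X]) = RingHom.id ℝ := by
    ext x; simp
  rw [approx]
  simp [Polynomial.map_map, this]

theorem approx_map (G : ℝ[X]) (k r : ℕ) (s : ℝ) : (approx G k r).map (evalRingHom s)
    = G * (1 - C s * X) ^ r *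
      (1 - C (s ^ 2 * (-(X * G).coeff k / G.coeff k) + r * s) * X - C (s ^ 2) * X ^ 2) := by
  rw [approx]
  simp only [Polynomial.map_mul, Polynomial.map_sub, Polynomial.map_pow, Polynomial.map_map,
    map_C, map_X, Polynomial.map_one, coe_evalRingHom, eval_X, eval_add, eval_mul, eval_pow,
    eval_C, Polynomial.map_one]
  congr 2
  have : (evalRingHom s).comp (C : ℝ →+* ℝ[X]) = RingHom.id ℝ := by
    ext x; simp
  rw [this, Polynomial.map_id]

theorem coeff_step (G : ℝ[X]) (k : ℕ) (hk : G.coeff k ≠ 0) (hkd : G.natDegree ≤ k) (s : ℝ)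
    (r : ℕ) :
    (G * (1 - C s * X) ^ r).natDegree ≤ k + r ∧
    (G * (1 - C s * X) ^ r).coeff (k + r) = (-s) ^ r * G.coeff k ∧
    s * (X * (G * (1 - C s * X) ^ r)).coeff (k + r)
      = - (s * (-(X * G).coeff k / G.coeff k) + r) * (G * (1 - C s * X) ^ r).coeff (k + r) := by
  induction r with
  | zero =>
    refine ⟨by simpa using hkd, by simp, ?_⟩
    simp only [pow_zero, mul_one, Nat.cast_zero, add_zero]
    field_simp
  | succ r ih =>
    obtain ⟨h1, h2, h3⟩ := ih
    set P := G * (1 - C s * X) ^ r with hP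
    have hP' : G * (1 - C s * X) ^ (r + 1) = P - C s * (X * P) := by
      rw [hP, pow_succ]; ring
    have hPtop : P.coeff (k + r + 1) = 0 := coeff_eq_zero_of_natDegree_lt (by omega)
    have hc : (P - C s * (X * P)).coeff (k + (r + 1)) = - s * P.coeff (k + r) := by
      rw [← add_assoc, coeff_sub, coeff_C_mul, coeff_X_mul, hPtop]; ring
    rw [hP']
    refine ⟨?_, ?_, ?_⟩
    · refine (natDegree_sub_le _ _).trans (max_le (by omega) ?_)
      refine (natDegree_C_mul_le _ _).trans (natDegree_mul_le.trans ?_)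
      rw [natDegree_X]; omega
    · rw [hc, h2, pow_succ]; ring
    · rw [hc, ← add_assoc, coeff_X_mul, coeff_sub, coeff_C_mul]
      push_cast
      linear_combination (-s) * h3

/-- all degrees -/
theorem stab_all {N : ℕ} {G : ℝ[X]} (hG : G.natDegree ≤ N + 2) (h0 : G.coeff (N + 1) = 0)
    (hG0 : G ≠ 0)
    (hreal : ZF (G.map (algebraMap ℝ ℂ))) (a : Fin (N + 1) → ℝ) (ha : ∀ i, 0 ≤ a i) :
    Stab (N + 2) ((fpoly a (wseq (N + 2) G) Finset.univ).map (algebraMap ℝ ℂ)) := by
  rcases Nat.lt_or_ge G.natDegree (N + 2) with hlt | hge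
  swap
  · exact stab_full (le_antisymm hG hge) h0 hreal a ha
  -- `natDegree G ≤ N`
  set k := G.natDegree with hk
  have hlc : G.coeff k ≠ 0 := by
    rw [hk, coeff_natDegree, Ne, leadingCoeff_eq_zero]; exact hG0
  have hkN : k ≤ N := by
    by_contra hc
    have : k = N + 1 := by omega
    rw [this] at hlc
    exact hlc h0
  obtain ⟨r, rfl⟩ : ∃ r, N = k + r := ⟨N - k, by omega⟩
  set Gs : ℝ → ℝ[X] := fun s => (approx G k r).map (evalRingHom s) with hGs
  set σ : ℝ := -(X * G).coeff k / G.coeff k with hσ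
  have hfull : ∀ s : ℝ, s ≠ 0 →
      Stab (k + r + 2) ((fpoly a (wseq (k + r + 2) (Gs s)) Finset.univ).map (algebraMap ℝ ℂ)) := by
    intro s hs
    obtain ⟨h1, h2, h3⟩ := coeff_step G k hlc le_rfl s r
    set P := G * (1 - C s * X) ^ r with hP
    have hGsP : Gs s = P - C (s ^ 2 * σ + r * s) * (X * P) - C (s ^ 2) * (X * (X * P)) := by
      rw [hGs]
      simp only
      rw [approx_map]
      ring
    have hPt : ∀ i, k + r < i → P.coeff i = 0 := fun i hi =>
      coeff_eq_zero_of_natDegree_lt (by omega)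
    have hPne : P.coeff (k + r) ≠ 0 := by
      rw [h2]
      exact mul_ne_zero (pow_ne_zero _ (neg_ne_zero.2 hs)) hlc
    have hdeg : (Gs s).natDegree ≤ k + r + 2 := by
      rw [hGsP]
      refine (natDegree_sub_le _ _).trans (max_le ((natDegree_sub_le _ _).trans
        (max_le (by omega) ?_)) ?_)
      · refine (natDegree_C_mul_le _ _).trans (natDegree_mul_le.trans ?_)
        rw [natDegree_X]; omega
      · refine (natDegree_C_mul_le _ _).trans (natDegree_mul_le.trans ?_)
        have := natDegree_mul_le (p := X) (q := P)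
        rw [natDegree_X] at this ⊢; omega
    have htop : (Gs s).coeff (k + r + 2) = - s ^ 2 * P.coeff (k + r) := by
      rw [hGsP, coeff_sub, coeff_sub, coeff_C_mul, coeff_C_mul, coeff_X_mul, coeff_X_mul,
        coeff_X_mul, hPt _ (by omega), hPt _ (by omega)]
      ring
    have hnat : (Gs s).natDegree = k + r + 2 := by
      apply le_antisymm hdeg
      apply le_natDegree_of_ne_zero
      rw [htop]
      exact mul_ne_zero (neg_ne_zero.2 (pow_ne_zero _ hs)) hPne
    have hz : (Gs s).coeff (k + r + 1) = 0 := by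
      rw [hGsP, coeff_sub, coeff_sub, coeff_C_mul, coeff_C_mul, coeff_X_mul, coeff_X_mul,
        hPt _ (by omega)]
      linear_combination (-s) * h3
    have hzf : ZF ((Gs s).map (algebraMap ℝ ℂ)) := by
      intro z hzim
      have hGsm : Gs s = G * (1 - C s * X) ^ r *
        (1 - C (s ^ 2 * σ + r * s) * X - C (s ^ 2) * X ^ 2) := approx_map G k r s
      rw [hGsm]
      simp only [Polynomial.map_mul, Polynomial.map_sub, Polynomial.map_pow, map_C, map_X,
        Polynomial.map_one, eval_mul, eval_sub, eval_pow, eval_C, eval_X, eval_one]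
      refine mul_ne_zero (mul_ne_zero (hreal z hzim) (pow_ne_zero _ ?_)) ?_
      · intro h
        have h4 := congrArg Complex.im h
        simp at h4
        rcases h4 with h4 | h4
        · exact hs h4
        · exact hzim.ne' h4
      · intro h
        set p : ℝ := s ^ 2 * σ + r * s with hp
        have h4 := congrArg Complex.im h
        have h5 := congrArg Complex.re h
        simp [pow_two] at h4 h5
        have hs2 : 0 < s ^ 2 := by positivity
        have h6 : z.im * (-p - 2 * s ^ 2 * z.re) = 0 := by linear_combination h4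
        have h7 : -p - 2 * s ^ 2 * z.re = 0 := by
          rcases mul_eq_zero.1 h6 with h | h
          · exact absurd h hzim.ne'
          · exact h
        have h8 : 1 + s ^ 2 * z.re ^ 2 + s ^ 2 * z.im ^ 2 = 0 := by
          linear_combination h5 - z.re * h7
        have : 0 < z.im ^ 2 := by positivity
        nlinarith [sq_nonneg (z.re)]
    exact stab_full hnat hz hzf a ha
  -- continuity at `s = 0`
  have hcont : ∀ z : ℂ, Continuous fun s : ℝ =>
      ((fpoly a (wseq (k + r + 2) (Gs s)) Finset.univ).map (algebraMap ℝ ℂ)).eval z := by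
    intro z
    set wh : ℕ → ℝ[X] := fun j => C (rho (k + r + 2) j) * (approx G k r).coeff (k + r + 2 - j)
    have h1 : ∀ s : ℝ, fpoly a (wseq (k + r + 2) (Gs s)) Finset.univ
        = (fpoly (fun i => C (a i)) wh Finset.univ).map (evalRingHom s) := by
      intro s
      have h2 : (fun j => (evalRingHom s) (wh j)) = wseq (k + r + 2) (Gs s) := by
        funext j
        simp [wh, wseq, hGs]
      have h3 : (fun i => (evalRingHom s) (C (a i))) = a := by funext i; simp
      have h5 : (evalRingHom s) (∑ i, C (a i)) = ∑ i, a i := by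
        rw [map_sum]; exact Finset.sum_congr rfl fun i _ => by simp
      rw [fpoly, fpoly, Polynomial.map_add, Polynomial.map_mul, Polynomial.map_mul, map_UP,
        map_UP, map_X, map_C, h2, h3, h5]
    simp only [h1]
    exact continuous_param _ z
  have hGs0 : Gs 0 = G := approx_zero G k r
  rw [← hGs0]
  intro z w hzim
  have h1 : Filter.Tendsto (fun s : ℝ =>
      ‖((fpoly a (wseq (k + r + 2) (Gs s)) Finset.univ).map (algebraMap ℝ ℂ)).eval w‖)
      (nhdsWithin 0 (Set.Ioi 0)) _ := ((hcont w).norm.tendsto 0).mono_left nhdsWithin_le_nhds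
  have h2 : Filter.Tendsto (fun s : ℝ => (1 + ‖w - z‖ / z.im) ^ (k + r + 2) *
      ‖((fpoly a (wseq (k + r + 2) (Gs s)) Finset.univ).map (algebraMap ℝ ℂ)).eval z‖)
      (nhdsWithin 0 (Set.Ioi 0)) _ :=
    (((hcont z).norm.tendsto 0).mono_left nhdsWithin_le_nhds).const_mul _
  refine le_of_tendsto_of_tendsto h1 h2 ?_
  filter_upwards [self_mem_nhdsWithin] with s hs
  exact hfull s (ne_of_gt hs) z w hzim

end Pool.Agent.W_MP_0cd67c_ag
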