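import Pool.Agent.W_MP_0cd67c_ag.Final
import Pool.Agent.W_MP_0cd67c_ag.Defs

/-!
The main theorem.
-/

namespace Pool.Agent.W_MP_0cd67c_ag

open Polynomial

theorem onlyReal_of_stab {k : ℕ} {P : ℝ[X]} (h : Stab k (P.map (algebraMap ℝ ℂ))) :
    OnlyRealRoots P := by
  by_cases hP : P = 0
  · exact Or.inl hP
  · right
    have hne : P.map (algebraMap ℝ ℂ) ≠ 0 := by
      rw [Ne, Polynomial.map_eq_zero]; exact hP
    have hz := h.zf hne
    intro z h0
    have h1 : (P.map (algebraMap ℝ ℂ)).eval z = 0 := by rw [eval_map_algebraMap, h0]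
    have h2 : (P.map (algebraMap ℝ ℂ)).eval ((starRingEnd ℂ) z) = 0 := by
      rw [eval_map_algebraMap, Polynomial.aeval_conj, h0, map_zero]
    have h3 : z.im ≤ 0 := by
      by_contra hc
      push Not at hc
      exact hz z hc h1
    have h4 : 0 ≤ z.im := by
      by_contra hc
      push Not at hc
      exact hz _ (by simpa using hc) h2
    exact le_antisymm h3 h4

theorem zf_of_onlyReal {g : ℝ[X]} (h : OnlyRealRoots g) (hg : g ≠ 0) :
    ZF (g.map (algebraMap ℝ ℂ)) := by
  rcases h with h | h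
  · exact absurd h hg
  · intro z hz h0
    rw [eval_map_algebraMap] at h0
    exact hz.ne' (h z h0)

theorem splits_of_onlyReal {g : ℝ[X]} (h : OnlyRealRoots g) : g.Splits := by
  by_cases hg : g = 0
  · rw [hg]; exact Splits.zero
  · exact splits_of_zf (zf_of_onlyReal h hg)

theorem onlyReal_zero : OnlyRealRoots 0 := Or.inl rfl

theorem onlyReal_comp_neg {P : ℝ[X]} (h : OnlyRealRoots (P.comp (-X))) : OnlyRealRoots P := by
  rcases h with h | h
  · left
    exact comp_neg_X_eq_zero_iff.1 h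
  · right
    intro z hz
    have h1 := h (-z) (by rw [aeval_comp]; simpa using hz)
    simpa using h1

theorem onlyReal_X_pow_mul {P : ℝ[X]} (h : OnlyRealRoots P) (k : ℕ) :
    OnlyRealRoots (X ^ k * P) := by
  rcases h with h | h
  · left; rw [h, mul_zero]
  · right
    intro z hz
    rw [map_mul, map_pow, aeval_X, mul_eq_zero] at hz
    rcases hz with hz | hz
    · by_cases hk : k = 0
      · subst hk; simp at hz
      · rw [pow_eq_zero_iff hk] at hz
        rw [hz]; simp
    · exact h z hz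

theorem coeff_comp_neg (p : ℝ[X]) (j : ℕ) : (p.comp (-X)).coeff j = (-1) ^ j * p.coeff j := by
  have : (-X : ℝ[X]) = C (-1) * X := by simp
  rw [this, comp_C_mul_X_coeff, mul_comm]

theorem had_comp_neg (m : ℕ) (H : ℝ[X]) (w : ℕ → ℝ) :
    had m (H.comp (-X)) w = (had m H w).comp (-X) := by
  ext j
  rw [coeff_comp_neg, coeff_had, coeff_had, coeff_comp_neg]
  split_ifs <;> ring

theorem had_X_pow_mul (k m : ℕ) (H : ℝ[X]) (w : ℕ → ℝ) :
    had (k + m) (X ^ k * H) w = X ^ k * had m H w := by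
  ext j
  rw [coeff_had, coeff_X_pow_mul', coeff_X_pow_mul', coeff_had]
  by_cases h1 : k ≤ j
  · by_cases h2 : j - k ≤ m
    · rw [if_pos (by omega), if_pos h1, if_pos h1, if_pos h2,
        show k + m - j = m - (j - k) by omega]
    · rw [if_neg (by omega), if_pos h1, if_neg h2]
  · rw [if_neg h1, if_neg h1]
    split_ifs <;> ring

/-- sign condition -/
def SignCond (d : ℕ) (h : ℝ[X]) : Prop :=
  d - 1 ≤ h.roots.countP (fun x => 0 ≤ x) ∨ ∀ x ∈ h.roots, 0 ≤ x

theorem Good.stab_pos {N : ℕ} {w : ℕ → ℝ} (hw : Good N w) {H : ℝ[X]} (hs : H.Splits)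
    (hd : H.natDegree ≤ N + 2) (hc : H.coeff (N + 1) = 0) (hsign : SignCond (N + 2) H) :
    Stab (N + 2) ((had (N + 2) H w).map (algebraMap ℝ ℂ)) := by
  by_cases hH : H = 0
  · have : had (N + 2) H w = 0 := by
      ext j; rw [coeff_had, hH]; simp
    rw [this, Polynomial.map_zero]
    exact stab_zero _
  have hcard : H.roots.card = H.natDegree := hs.natDegree_eq_card_roots.symm
  have hne : H.natDegree ≠ N + 1 := by
    intro h
    rw [← h] at hc
    exact hH (leadingCoeff_eq_zero.1 hc)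
  rcases hsign with hsign | hsign
  · have h1 : H.roots.countP (fun x => 0 ≤ x) ≤ H.roots.card := Multiset.countP_le_card _ _
    have h2 : H.natDegree = N + 2 := by omega
    refine hw.stab_had hs h2 hc ?_
    rw [← Multiset.countP_eq_card_filter]
    exact hsign
  · by_cases h2 : H.natDegree = N + 2
    · refine hw.stab_had hs h2 hc ?_
      rw [Multiset.filter_eq_self.2 hsign, hcard, h2]
      omega
    · exact hw.stab_had_low hs (by omega) hsign

theorem SignCond.of_X_pow_mul {k m : ℕ} {H : ℝ[X]} (hH : H ≠ 0)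
    (h : SignCond (k + m) (X ^ k * H)) (hm : 1 ≤ m) : SignCond m H := by
  have hr : (X ^ k * H).roots = Multiset.replicate k 0 + H.roots := by
    rw [roots_mul (mul_ne_zero (pow_ne_zero _ X_ne_zero) hH), roots_X_pow,
      Multiset.nsmul_singleton]
  rw [SignCond, hr] at h
  rcases h with h | h
  · left
    rw [Multiset.countP_add] at h
    have h1 : (Multiset.replicate k (0 : ℝ)).countP (fun x => 0 ≤ x) ≤ k := by
      refine (Multiset.countP_le_card _ _).trans ?_
      rw [Multiset.card_replicate]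
    omega
  · right
    exact fun x hx => h x (Multiset.mem_add.2 (Or.inr hx))

/-- the sequence `w` is good for all relevant shapes -/
theorem onlyReal_had_pos {N : ℕ} {w : ℕ → ℝ} (hw : Good N w) (k : ℕ) {h : ℝ[X]}
    (hreal : OnlyRealRoots h)
    (hd : h.natDegree ≤ k + (N + 2)) (hlow : ∀ j < k, h.coeff j = 0)
    (hc : h.coeff (k + (N + 1)) = 0) (hsign : SignCond (k + (N + 2)) h) :
    OnlyRealRoots (had (k + (N + 2)) h w) := by
  obtain ⟨H, rfl⟩ : ∃ H, h = X ^ k * H := X_pow_dvd_iff.2 hlow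
  by_cases hH : H = 0
  · rw [hH, mul_zero]
    left
    ext j; rw [coeff_had]; simp
  have h1 : H.natDegree ≤ N + 2 := by
    rw [natDegree_mul (pow_ne_zero _ X_ne_zero) hH, natDegree_X_pow] at hd
    omega
  have h2 : H.coeff (N + 1) = 0 := by
    rw [add_comm k, coeff_X_pow_mul] at hc
    exact hc
  have h3 : H.Splits := by
    have h4 := splits_of_onlyReal hreal
    exact h4.of_dvd (mul_ne_zero (pow_ne_zero _ X_ne_zero) hH) (dvd_mul_left _ _)
  rw [had_X_pow_mul]
  exact onlyReal_X_pow_mul (onlyReal_of_stab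
    (hw.stab_pos h3 h1 h2 (hsign.of_X_pow_mul hH (by omega)))) k

theorem onlyReal_had {N : ℕ} {w : ℕ → ℝ} (hw : Good N w) (k : ℕ) {h : ℝ[X]}
    (hreal : OnlyRealRoots h)
    (hd : h.natDegree ≤ k + (N + 2)) (hlow : ∀ j < k, h.coeff j = 0)
    (hc : h.coeff (k + (N + 1)) = 0)
    (hsign : SameSignRoots (k + (N + 2) - 1) h ∨ (∀ x ∈ h.roots, 0 ≤ x) ∨
      (∀ x ∈ h.roots, x ≤ 0)) :
    OnlyRealRoots (had (k + (N + 2)) h w) := by
  have hsign' : SignCond (k + (N + 2)) h ∨ SignCond (k + (N + 2)) (h.comp (-X)) := by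
    rw [SignCond, SignCond, roots_comp_neg_X, Multiset.countP_map, ← Multiset.countP_eq_card_filter]
    simp only [Multiset.mem_map, forall_exists_index, and_imp, forall_apply_eq_imp_iff₂,
      Left.nonneg_neg_iff]
    rcases hsign with (h | h) | h | h
    · exact Or.inl (Or.inl h)
    · exact Or.inr (Or.inl h)
    · exact Or.inl (Or.inr h)
    · exact Or.inr (Or.inr h)
  rcases hsign' with hs | hs
  · exact onlyReal_had_pos hw k hreal hd hlow hc hs
  · apply onlyReal_comp_neg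
    rw [← had_comp_neg]
    apply onlyReal_had_pos hw k _ _ _ _ hs
    · apply onlyReal_comp_neg
      rw [comp_neg_X_comp_neg_X]
      exact hreal
    · rw [natDegree_comp]; simpa using hd
    · intro j hj
      rw [coeff_comp_neg, hlow j hj, mul_zero]
    · rw [coeff_comp_neg, hc, mul_zero]

/-- the monomials of `ZeroSum n` -/
theorem mono_mem {n j : ℕ} (h : j ≤ n ∧ j ≠ n - 1) : (X ^ j : ℝ[X]) ∈ ZeroSum n := by
  refine ⟨by rw [natDegree_X_pow]; exact h.1, ?_⟩
  rw [coeff_X_pow, if_neg (Ne.symm h.2)]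

open Classical in
/-- monomials -/
noncomputable def mono (n j : ℕ) : ZeroSum n :=
  if h : j ≤ n ∧ j ≠ n - 1 then ⟨X ^ j, mono_mem h⟩ else 0

theorem expand {n : ℕ} (p : ZeroSum n) :
    p = ∑ j ∈ Finset.range (n + 1), (p : ℝ[X]).coeff j • mono n j := by
  apply Subtype.ext
  rw [AddSubmonoidClass.coe_finsetSum]
  have h1 : ∀ j ∈ Finset.range (n + 1), (((p : ℝ[X]).coeff j • mono n j : ZeroSum n) : ℝ[X])
      = C ((p : ℝ[X]).coeff j) * X ^ j := by
    intro j hj
    rw [Submodule.coe_smul, smul_eq_C_mul]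
    by_cases h : j ≤ n ∧ j ≠ n - 1
    · rw [mono, dif_pos h]
    · have h2 : j = n - 1 := by
        by_contra hc
        exact h ⟨by simpa [Nat.lt_succ_iff] using hj, hc⟩
      have h3 : (p : ℝ[X]).coeff j = 0 := by rw [h2]; exact p.2.2
      rw [h3]; simp
  rw [Finset.sum_congr rfl h1]
  exact as_sum_range_C_mul_X_pow' (p := (p : ℝ[X])) (Nat.lt_succ_iff.2 p.2.1)

/-- coefficients of `T p` -/
theorem coeff_T {n d : ℕ} {T : ZeroSum n →ₗ[ℝ] ZeroSum d} {γ : ℕ → ℝ}
    (hγ : ∀ i ≤ n, ∀ p : ZeroSum n, (p : ℝ[X]) = X ^ (n - i) →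
      (T p : ℝ[X]) = if i ≤ d then C (γ i) * X ^ (d - i) else 0)
    (p : ZeroSum n) {l : ℕ} (hl : l ≤ d) :
    (T p : ℝ[X]).coeff l = if d - l ≤ n then γ (d - l) * (p : ℝ[X]).coeff (n - (d - l)) else 0 := by
  have h1 : (T p : ℝ[X]) = ∑ j ∈ Finset.range (n + 1), C ((p : ℝ[X]).coeff j) * (T (mono n j) : ℝ[X]) := by
    conv_lhs => rw [expand p]
    rw [map_sum, AddSubmonoidClass.coe_finsetSum]
    refine Finset.sum_congr rfl fun j _ => ?_
    rw [map_smul, Submodule.coe_smul, smul_eq_C_mul]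
  rw [h1, finsetSum_coeff]
  have h2 : ∀ j ∈ Finset.range (n + 1), (C ((p : ℝ[X]).coeff j) * (T (mono n j) : ℝ[X])).coeff l
      = if j + (d - l) = n then γ (d - l) * (p : ℝ[X]).coeff j else 0 := by
    intro j hj
    have hj' : j ≤ n := by simpa [Nat.lt_succ_iff] using hj
    rw [coeff_C_mul]
    by_cases h : j ≤ n ∧ j ≠ n - 1
    · have h3 : ((mono n j : ZeroSum n) : ℝ[X]) = X ^ (n - (n - j)) := by
        rw [mono, dif_pos h, Nat.sub_sub_self hj']
      rw [hγ (n - j) (Nat.sub_le _ _) _ h3]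
      by_cases h4 : n - j ≤ d
      · rw [if_pos h4, coeff_C_mul, coeff_X_pow]
        by_cases h5 : l = d - (n - j)
        · rw [if_pos h5, if_pos (by omega), show d - l = n - j by omega]; ring
        · rw [if_neg h5, if_neg (by omega)]; ring
      · rw [if_neg h4, if_neg (by omega)]; simp
    · have h5 : j = n - 1 := by
        by_contra hc
        exact h ⟨hj', hc⟩
      have h3 : (p : ℝ[X]).coeff j = 0 := by rw [h5]; exact p.2.2
      rw [h3]; simp
  rw [Finset.sum_congr rfl h2]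
  by_cases h6 : d - l ≤ n
  · rw [if_pos h6, Finset.sum_eq_single (n - (d - l))]
    · rw [if_pos (by omega)]
    · intro b hb hb'
      rw [if_neg (by omega)]
    · intro hb
      exact absurd (Finset.mem_range.2 (by omega)) hb
  · rw [if_neg h6]
    refine Finset.sum_eq_zero fun j _ => ?_
    rw [if_neg (by omega)]

theorem T_eq_had {n d : ℕ} (hn : 1 ≤ n) {T : ZeroSum n →ₗ[ℝ] ZeroSum d} (hT : IsDiagonal T)
    (p : ZeroSum n) :
    (T p : ℝ[X]) = had d (T (gZero n hn) : ℝ[X]) (wseq n (p : ℝ[X])) := by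
  obtain ⟨γ, hγ⟩ := hT
  obtain ⟨k, rfl⟩ : ∃ k, n = k + 1 := ⟨n - 1, by omega⟩
  ext l
  rw [coeff_had]
  by_cases hl : l ≤ d
  swap
  · rw [if_neg hl]
    exact coeff_eq_zero_of_natDegree_lt (lt_of_le_of_lt (T p).2.1 (by omega))
  rw [if_pos hl]
  by_cases hl1 : l = d - 1
  · have h1 : (T p : ℝ[X]).coeff l = 0 := by rw [hl1]; exact (T p).2.2
    have h2 : (T (gZero (k + 1) hn) : ℝ[X]).coeff l = 0 := by
      rw [hl1]; exact (T (gZero (k + 1) hn)).2.2
    rw [h1, h2, zero_mul]
  · rw [coeff_T hγ p hl, coeff_T hγ (gZero (k + 1) hn) hl]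
    by_cases h6 : d - l ≤ k + 1
    · rw [if_pos h6, if_pos h6]
      have h7 := wseq_g0 k (d - l) h6 (by omega)
      have h8 : ((gZero (k + 1) hn : ZeroSum (k + 1)) : ℝ[X])
          = (X - 1 : ℝ[X]) ^ k * (X + C (k : ℝ)) := by
        rw [gZero]
        simp only [Nat.add_sub_cancel]
        congr 3
        push_cast; ring
      rw [h8]
      rw [wseq] at h7 ⊢
      linear_combination (-(γ (d - l) * (p : ℝ[X]).coeff (k + 1 - (d - l)))) * h7
    · rw [if_neg h6, if_neg h6, zero_mul]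

/-- from `n` to a smaller `m` -/
theorem good_of_le {n N : ℕ} {g : ℝ[X]} (hg : g.natDegree ≤ n) (h0 : g.coeff (n - 1) = 0)
    (hreal : ZF (g.map (algebraMap ℝ ℂ))) (hN : N + 2 ≤ n) : Good N (wseq n g) := by
  have h1 := PS_wseq hg h0
  have h2 := map_PS (algebraMap ℝ ℂ) n (fun j => (1 - (j : ℝ)) * wseq n g j) 0
  rw [h1] at h2
  have h3 : ∀ r : ℕ, N + 2 + r ≤ n → Stab (N + 2 + r)
      (PS (N + 2 + r) (fun j => algebraMap ℝ ℂ ((1 - (j : ℝ)) * wseq n g j)) 0) →
      Stab (N + 2) (PS (N + 2) (fun j => algebraMap ℝ ℂ ((1 - (j : ℝ)) * wseq n g j)) 0) := by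
    intro r
    induction r with
    | zero => intro _ h; exact h
    | succ r ih =>
      intro hr h
      apply ih (by omega)
      have h4 := stab_step (k := N + 2 + r) h (t := 1) (b := 0) (by simp) le_rfl
      have h5 : (fun j : ℕ => 1 * (algebraMap ℝ ℂ ((1 - (j : ℝ)) * wseq n g j)) -
          ((0 : ℝ) : ℂ) * (algebraMap ℝ ℂ ((1 - ((j + 1 : ℕ) : ℝ)) * wseq n g (j + 1))))
          = fun j : ℕ => algebraMap ℝ ℂ ((1 - (j : ℝ)) * wseq n g j) := by
        funext j
        rw [Complex.ofReal_zero, zero_mul, one_mul, sub_zero]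
      rw [h5] at h4
      exact h4
  obtain ⟨r, rfl⟩ : ∃ r, n = N + 2 + r := ⟨n - (N + 2), by omega⟩
  have h4 := h3 r le_rfl (by rw [← h2]; exact hreal.stab (natDegree_map_le.trans hg))
  set G : ℝ[X] := PS (N + 2) (fun j => (1 - (j : ℝ)) * wseq (N + 2 + r) g j) 0 with hG
  have h5 : G.map (algebraMap ℝ ℂ)
      = PS (N + 2) (fun j => algebraMap ℝ ℂ ((1 - (j : ℝ)) * wseq (N + 2 + r) g j)) 0 :=
    map_PS _ _ _ _
  rw [← h5] at h4
  have hcoeff : ∀ i ≤ N + 2, G.coeff (N + 2 - i) = (-1) ^ i * ((N + 2).choose i : ℝ) *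
      ((1 - (i : ℝ)) * wseq (N + 2 + r) g i) := by
    intro i hi
    rw [hG, coeff_PS (N + 2) _ 0 (N + 2 - i) i (by omega), zero_add]
  have hw : ∀ i ≤ N + 2, wseq (N + 2) G i = wseq (N + 2 + r) g i := by
    intro i hi
    by_cases hi1 : i = 1
    · subst hi1
      rw [wseq, wseq, rho, rho]; simp
    · rw [wseq, hcoeff i hi, rho]
      have hc : ((N + 2).choose i : ℝ) ≠ 0 := by
        exact_mod_cast (Nat.choose_pos hi).ne'
      have h1 : (1 - (i : ℝ)) ≠ 0 := by
        intro h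
        apply hi1
        have : (i : ℝ) = 1 := by linarith
        exact_mod_cast this
      have h2 : ((-1 : ℝ) ^ i) * (-1) ^ i = 1 := by
        rw [← mul_pow]; simp
      field_simp
      linear_combination (wseq (N + 2 + r) g i) * h2
  by_cases hG0 : G = 0
  · -- then all `w i` vanish
    have hw0 : ∀ i ≤ N + 2, wseq (N + 2 + r) g i = 0 := by
      intro i hi
      rw [← hw i hi, hG0, wseq]; simp
    intro s _ _
    have : had (N + 2) ((X + C s.sum) * (s.map fun x => X - C x).prod) (wseq (N + 2 + r) g)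
        = 0 := by
      ext j
      rw [coeff_had]
      split_ifs with hj
      · rw [hw0 _ (Nat.sub_le _ _)]; simp
      · simp
    rw [this, Polynomial.map_zero]
    exact stab_zero _
  · have hne : G.map (algebraMap ℝ ℂ) ≠ 0 := by
      rw [Ne, Polynomial.map_eq_zero]; exact hG0
    have h6 : G.coeff (N + 1) = 0 := by
      have := hcoeff 1 (by omega)
      rw [show N + 2 - 1 = N + 1 by omega] at this
      rw [this]; simp
    exact (good_wseq (natDegree_PS_le _ _ _) h6 hG0 (h4.zf hne)).congr hw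

theorem main (n d : ℕ) (hn : 1 ≤ n) (hd : 1 ≤ d) (T : ZeroSum n →ₗ[ℝ] ZeroSum d)
    (hT : IsDiagonal T) (hreal : OnlyRealRoots (T (gZero n hn) : ℝ[X]))
    (hsign : SameSignRoots (d - 1) (T (gZero n hn) : ℝ[X]) ∨
      (∀ x ∈ (T (gZero n hn) : ℝ[X]).roots, 0 ≤ x) ∨
      (∀ x ∈ (T (gZero n hn) : ℝ[X]).roots, x ≤ 0)) :
    IsPreserver T := by
  intro g hg
  by_cases hg0 : (g : ℝ[X]) = 0
  · have : g = 0 := Subtype.ext hg0
    rw [this, map_zero]
    exact Or.inl rfl
  have hzf := zf_of_onlyReal hg hg0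
  set h : ℝ[X] := (T (gZero n hn) : ℝ[X]) with hh
  have hhd : h.natDegree ≤ d := (T (gZero n hn)).2.1
  have hhc : h.coeff (d - 1) = 0 := (T (gZero n hn)).2.2
  rw [T_eq_had hn hT g, ← hh]
  rcases Nat.lt_or_ge n 2 with h1 | h1
  · -- `n = 1`
    obtain rfl : n = 1 := by omega
    obtain ⟨γ, hγ⟩ := hT
    have hg1 : (g : ℝ[X]) = C ((g : ℝ[X]).coeff 1) * X := by
      ext j
      rcases j with _ | _ | j
      · have := g.2.2
        simp at this
        simp [this]
      · simp
      · rw [coeff_eq_zero_of_natDegree_lt (lt_of_le_of_lt g.2.1 (by omega)), coeff_C_mul,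
          coeff_X, if_neg (by omega), mul_zero]
    rw [hh, ← T_eq_had hn ⟨γ, hγ⟩ g]
    have h2 : g = (g : ℝ[X]).coeff 1 • mono 1 1 := by
      apply Subtype.ext
      rw [Submodule.coe_smul, smul_eq_C_mul, mono, dif_pos (by omega)]
      change (g : ℝ[X]) = C ((g : ℝ[X]).coeff 1) * X ^ 1
      rw [pow_one]
      exact hg1
    have h3 := hγ 0 (by omega) (mono 1 1) (by rw [mono, dif_pos (by omega)])
    rw [h2, map_smul, Submodule.coe_smul, smul_eq_C_mul, h3, if_pos (by omega), ← mul_assoc,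
      ← C_mul, mul_comm, Nat.sub_zero]
    apply onlyReal_X_pow_mul
    by_cases h4 : (g : ℝ[X]).coeff 1 * γ 0 = 0
    · left; rw [h4, map_zero]
    · right
      intro z hz
      rw [aeval_C] at hz
      exact absurd ((map_eq_zero (algebraMap ℝ ℂ)).1 hz) h4
  rcases Nat.lt_or_ge d 2 with h2 | h2
  · obtain rfl : d = 1 := by omega
    -- `T g = c t`
    have h3 : ∀ w : ℕ → ℝ, had 1 h w = X ^ 1 * C (h.coeff 1 * w 0) := by
      intro w
      ext j
      rw [coeff_had, mul_comm (X ^ 1), coeff_C_mul, coeff_X_pow]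
      rcases j with _ | _ | j
      · simp at hhc
        simp [hhc]
      · simp
      · rw [if_neg (by omega), if_neg (by omega), mul_zero]
    rw [h3]
    apply onlyReal_X_pow_mul
    set c : ℝ := h.coeff 1 * wseq n (g : ℝ[X]) 0
    by_cases h4 : c = 0
    · left; rw [h4, map_zero]
    · right
      intro z hz
      rw [aeval_C] at hz
      exact absurd ((map_eq_zero (algebraMap ℝ ℂ)).1 hz) h4
  rcases Nat.lt_or_ge n d with h3 | h3
  · -- `n < d`
    obtain ⟨N, rfl⟩ : ∃ N, n = N + 2 := ⟨n - 2, by omega⟩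
    obtain ⟨k, rfl⟩ : ∃ k, d = k + (N + 2) := ⟨d - (N + 2), by omega⟩
    have hgood : Good N (wseq (N + 2) (g : ℝ[X])) := good_of_le g.2.1 g.2.2 hzf le_rfl
    refine onlyReal_had hgood k hreal hhd ?_ (by simpa using hhc) hsign
    intro j hj
    obtain ⟨γ, hγ⟩ := hT
    rw [hh, coeff_T hγ (gZero (N + 2) hn) (by omega), if_neg (by omega)]
  · obtain ⟨N, rfl⟩ : ∃ N, d = N + 2 := ⟨d - 2, by omega⟩
    have hgood : Good N (wseq n (g : ℝ[X])) := good_of_le g.2.1 g.2.2 hzf h3
    have := onlyReal_had hgood 0 hreal (by simpa using hhd) (by intro j hj; omega)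
      (by simpa using hhc) (by simpa using hsign)
    simpa using this

end Pool.Agent.W_MP_0cd67c_ag
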