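import Pool.Agent.W_MP_0cd67c_ag.Seq

/-!
Polynomials attached to sequences, polar derivatives, Newton inequalities.
-/

namespace Pool.Agent.W_MP_0cd67c_ag

open Polynomial

/-- `PS k c s = ∑_j (-1)^j (k choose j) c_{s+j} X^(k-j)`, i.e. `(X - σ)^k c` at `s`. -/
noncomputable def PS {K : Type*} [CommRing K] : ℕ → (ℕ → K) → ℕ → K[X]
  | 0, c, s => C (c s)
  | k + 1, c, s => X * PS k c s - PS k c (s + 1)

section
variable {K : Type*} [CommRing K]

theorem PS_succ (k : ℕ) (c : ℕ → K) (s : ℕ) :
    PS (k + 1) c s = X * PS k c s - PS k c (s + 1) := rfl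

theorem natDegree_PS_le (k : ℕ) (c : ℕ → K) (s : ℕ) : (PS k c s).natDegree ≤ k := by
  induction k generalizing s with
  | zero => simp [PS]
  | succ k ih =>
    rw [PS_succ]
    refine (natDegree_sub_le _ _).trans (max_le ?_ ?_)
    · refine natDegree_mul_le.trans ?_
      have := natDegree_X_le (R := K)
      have := ih s
      omega
    · have := ih (s + 1)
      omega

theorem derivative_PS (k : ℕ) (c : ℕ → K) (s : ℕ) :
    derivative (PS (k + 1) c s) = C ((k : K) + 1) * PS k c s := by
  induction k generalizing s with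
  | zero => simp [PS]
  | succ k ih =>
    rw [PS_succ (k + 1), derivative_sub, derivative_mul, derivative_X, ih, ih]
    rw [PS_succ k]
    push_cast
    simp only [map_add, map_one]
    ring

theorem PS_shift (k : ℕ) (c : ℕ → K) (s r : ℕ) :
    PS k (fun j => c (j + r)) s = PS k c (s + r) := by
  induction k generalizing s with
  | zero => rfl
  | succ k ih => rw [PS_succ, PS_succ, ih, ih, add_right_comm]

theorem PS_lin (k : ℕ) (c d : ℕ → K) (x y : K) (s : ℕ) :
    PS k (fun j => x * c j - y * d j) s = C x * PS k c s - C y * PS k d s := by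
  induction k generalizing s with
  | zero => simp [PS]
  | succ k ih => rw [PS_succ, PS_succ, PS_succ, ih, ih]; ring

theorem PS_congr (k : ℕ) {c d : ℕ → K} (s : ℕ) (h : ∀ j, s ≤ j → j ≤ s + k → c j = d j) :
    PS k c s = PS k d s := by
  induction k generalizing s with
  | zero => simp only [PS]; rw [h s le_rfl (by simp)]
  | succ k ih =>
    rw [PS_succ, PS_succ, ih s fun j h1 h2 => h j h1 (by omega),
      ih (s + 1) fun j h1 h2 => h j (by omega) (by omega)]

/-- the polar derivative in terms of sequences -/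
theorem polar_PS (k : ℕ) (c : ℕ → K) (ξ : K) (s : ℕ) :
    C (((k + 1 : ℕ) : K)) * PS (k + 1) c s - (X - C ξ) * derivative (PS (k + 1) c s)
      = C ((k : K) + 1) * PS k (fun j => ξ * c j - 1 * c (j + 1)) s := by
  rw [PS_lin k c (fun j => c (j + 1)), PS_shift, derivative_PS, PS_succ]
  push_cast
  simp only [map_add, map_one, map_natCast]
  ring

end

theorem ZF.C_mul {p : ℂ[X]} (h : ZF p) {c : ℂ} (hc : c ≠ 0) : ZF (C c * p) := by
  intro z hz
  rw [eval_mul, eval_C]
  exact mul_ne_zero hc (h z hz)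

theorem ZF.of_C_mul {p : ℂ[X]} {c : ℂ} (h : ZF (C c * p)) : ZF p := by
  intro z hz h0
  exact h z hz (by rw [eval_mul, h0, mul_zero])

/-- strict one-step -/
theorem zf_step {k : ℕ} {c : ℕ → ℂ} (h : ZF (PS (k + 1) c 0)) {t : ℂ} {b : ℝ}
    (ht : 0 < t.im) (hb : 0 < b) : ZF (PS k (fun j => t * c j - (b : ℂ) * c (j + 1)) 0) := by
  have hb0 : (b : ℂ) ≠ 0 := by exact_mod_cast hb.ne'
  have h1 : 0 < (t / b).im := by
    rw [Complex.div_ofReal_im]; positivity
  have h2 := laguerre h (natDegree_PS_le _ _ _) (by omega) h1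
  rw [polar_PS] at h2
  have h3 := (h2.of_C_mul).C_mul hb0
  rw [show (fun j => t / b * c j - 1 * c (j + 1)) = fun j => (t / b) * c j - 1 * c (j + 1) from
    rfl] at h3
  have h4 : C (b : ℂ) * PS k (fun j => t / b * c j - 1 * c (j + 1)) 0
      = PS k (fun j => t * c j - (b : ℂ) * c (j + 1)) 0 := by
    rw [PS_lin k c (fun j => c (j + 1)), PS_lin k c (fun j => c (j + 1)), mul_sub, ← mul_assoc,
      ← mul_assoc, ← C_mul, ← C_mul, mul_div_cancel₀ _ hb0, mul_one]
  rwa [h4] at h3

theorem PS_zero_of {k : ℕ} {c : ℕ → ℂ} (h : PS (k + 1) c 0 = 0) :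
    PS k c 0 = 0 ∧ PS k c 1 = 0 := by
  have h1 := derivative_PS k c 0
  rw [h, derivative_zero] at h1
  have hk : C ((k : ℂ) + 1) ≠ 0 := by
    rw [Ne, C_eq_zero]; exact_mod_cast Nat.succ_ne_zero k
  have h2 : PS k c 0 = 0 := by
    rcases mul_eq_zero.1 h1.symm with h | h
    · exact absurd h hk
    · exact h
  refine ⟨h2, ?_⟩
  rw [PS_succ, h2, mul_zero, zero_sub, neg_eq_zero] at h
  exact h

/-- closed one-step -/
theorem stab_step {k : ℕ} {c : ℕ → ℂ} (h : Stab (k + 1) (PS (k + 1) c 0)) {t : ℂ} {b : ℝ}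
    (ht : 0 ≤ t.im) (hb : 0 ≤ b) :
    Stab k (PS k (fun j => t * c j - (b : ℂ) * c (j + 1)) 0) := by
  by_cases h0 : PS (k + 1) c 0 = 0
  · obtain ⟨h1, h2⟩ := PS_zero_of h0
    rw [PS_lin k c (fun j => c (j + 1)), PS_shift, h1, zero_add, h2]
    simp only [mul_zero, sub_zero]
    exact stab_zero k
  · have hz := h.zf h0
    intro z w hzim
    -- perturb `t` and `b`
    have key : ∀ δ : ℝ, 0 < δ →
        ‖(PS k (fun j => (t + δ * Complex.I) * c j - ((b + δ : ℝ) : ℂ) * c (j + 1)) 0).eval w‖
          ≤ (1 + ‖w - z‖ / z.im) ^ k *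
            ‖(PS k (fun j => (t + δ * Complex.I) * c j
                - ((b + δ : ℝ) : ℂ) * c (j + 1)) 0).eval z‖ := by
      intro δ hδ
      have h1 : 0 < (t + δ * Complex.I).im := by simp; linarith
      exact (zf_step hz h1 (by linarith)).stab (natDegree_PS_le _ _ _) z w hzim
    have hev : ∀ (δ : ℝ) (u : ℂ),
        (PS k (fun j => (t + δ * Complex.I) * c j - ((b + δ : ℝ) : ℂ) * c (j + 1)) 0).eval u
          = (t + δ * Complex.I) * (PS k c 0).eval u - (b + δ : ℝ) * (PS k c 1).eval u := by
      intro δ u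
      rw [PS_lin k c (fun j => c (j + 1)), PS_shift]
      simp
    have hev0 : ∀ u : ℂ, (PS k (fun j => t * c j - (b : ℂ) * c (j + 1)) 0).eval u
          = t * (PS k c 0).eval u - b * (PS k c 1).eval u := by
      intro u
      rw [PS_lin k c (fun j => c (j + 1)), PS_shift]
      simp
    rw [hev0, hev0]
    have hcont : ∀ u : ℂ, Filter.Tendsto (fun δ : ℝ =>
        ‖(t + δ * Complex.I) * (PS k c 0).eval u - (b + δ : ℝ) * (PS k c 1).eval u‖)
        (nhdsWithin 0 (Set.Ioi 0)) (nhds ‖t * (PS k c 0).eval u - b * (PS k c 1).eval u‖) := by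
      intro u
      have h1 : Continuous fun δ : ℝ =>
          ‖(t + δ * Complex.I) * (PS k c 0).eval u - (b + δ : ℝ) * (PS k c 1).eval u‖ := by
        fun_prop
      have h2 := h1.tendsto 0
      simp only [Complex.ofReal_zero, zero_mul, add_zero] at h2
      exact h2.mono_left nhdsWithin_le_nhds
    refine le_of_tendsto_of_tendsto (hcont w) ((hcont z).const_mul _) ?_
    filter_upwards [self_mem_nhdsWithin] with δ hδ
    have := key δ hδ
    rwa [hev, hev] at this

variable {ι : Type*} [DecidableEq ι]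

theorem stab_U {c : ℕ → ℂ} (T : Finset ι) {k : ℕ} (h : Stab (k + T.card) (PS (k + T.card) c 0))
    {t : ℂ} (ht : 0 ≤ t.im) {b : ι → ℝ} (hb : ∀ i ∈ T, 0 ≤ b i) :
    Stab k (PS k (U t (fun i => (b i : ℂ)) c T) 0) := by
  induction T using Finset.induction generalizing k with
  | empty =>
    have : U t (fun i => (b i : ℂ)) c ∅ = c := by funext s; exact U_empty _ _ _ s
    rw [this]; simpa using h
  | insert i T hi ih =>
    rw [Finset.card_insert_of_notMem hi, ← add_assoc, add_right_comm] at h
    have h1 := ih (k := k + 1) h fun j hj => hb j (Finset.mem_insert_of_mem hj)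
    have h2 := stab_step h1 ht (hb i (Finset.mem_insert_self _ _))
    have : U t (fun i => (b i : ℂ)) c (insert i T) = fun j =>
        t * U t (fun i => (b i : ℂ)) c T j - (b i : ℂ) * U t (fun i => (b i : ℂ)) c T (j + 1) := by
      funext s; exact U_insert _ _ _ hi s
    rw [this]; exact h2

theorem zf_U {c : ℕ → ℂ} (T : Finset ι) {k : ℕ} (h : ZF (PS (k + T.card) c 0))
    {t : ℂ} (ht : 0 < t.im) {b : ι → ℝ} (hb : ∀ i ∈ T, 0 < b i) :
    ZF (PS k (U t (fun i => (b i : ℂ)) c T) 0) := by
  induction T using Finset.induction generalizing k with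
  | empty =>
    have : U t (fun i => (b i : ℂ)) c ∅ = c := by funext s; exact U_empty _ _ _ s
    rw [this]; simpa using h
  | insert i T hi ih =>
    rw [Finset.card_insert_of_notMem hi, ← add_assoc, add_right_comm] at h
    have h1 := ih (k := k + 1) h fun j hj => hb j (Finset.mem_insert_of_mem hj)
    have h2 := zf_step h1 ht (hb i (Finset.mem_insert_self _ _))
    have : U t (fun i => (b i : ℂ)) c (insert i T) = fun j =>
        t * U t (fun i => (b i : ℂ)) c T j - (b i : ℂ) * U t (fun i => (b i : ℂ)) c T (j + 1) := by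
      funext s; exact U_insert _ _ _ hi s
    rw [this]; exact h2

/-- Newton's inequality for real quadratics. -/
theorem newton_two {c : ℕ → ℝ} (h : Stab 2 (PS 2 (fun j => (c j : ℂ)) 0)) :
    c 0 * c 2 ≤ c 1 ^ 2 := by
  by_contra hc
  push Not at hc
  have h0 : c 0 ≠ 0 := by
    intro h0
    rw [h0, zero_mul] at hc
    nlinarith [sq_nonneg (c 1)]
  set p := PS 2 (fun j => (c j : ℂ)) 0 with hp
  have hev : ∀ z : ℂ, p.eval z = c 0 * z ^ 2 - 2 * c 1 * z + c 2 := by
    intro z
    simp only [hp, PS, eval_sub, eval_mul, eval_X, eval_C]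
    ring
  have hp0 : p ≠ 0 := by
    intro hp0
    have h1 := hev 0
    have h2 := hev 1
    have h3 := hev (-1)
    rw [hp0] at h1 h2 h3
    simp only [eval_zero] at h1 h2 h3
    have : (c 0 : ℂ) = 0 := by linear_combination (-1/2 : ℂ) * h2 - (1/2 : ℂ) * h3 + h1
    exact h0 (by exact_mod_cast this)
  have hz := h.zf hp0
  set d := Real.sqrt (c 0 * c 2 - c 1 ^ 2) with hd
  have hdpos : 0 < d := Real.sqrt_pos.2 (by linarith)
  have hdsq : d ^ 2 = c 0 * c 2 - c 1 ^ 2 := Real.sq_sqrt (by linarith)
  -- the root in the upper half plane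
  set z : ℂ := ⟨c 1 / c 0, d / |c 0|⟩ with hzdef
  have hzim : 0 < z.im := by
    show 0 < d / |c 0|
    have := abs_pos.2 h0
    positivity
  apply hz z hzim
  rw [hev]
  have habs : |c 0| ^ 2 = c 0 ^ 2 := sq_abs _
  have habs0 : |c 0| ≠ 0 := abs_ne_zero.2 h0
  apply Complex.ext
  · simp only [hzdef, pow_two, Complex.add_re, Complex.sub_re, Complex.mul_re, Complex.ofReal_re,
      Complex.ofReal_im, Complex.zero_re, Complex.mul_im]
    norm_num
    field_simp
    have : |c 0| ^ 2 = c 0 ^ 2 := sq_abs _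
    nlinarith
  · simp only [hzdef, pow_two, Complex.add_im, Complex.sub_im, Complex.mul_im, Complex.ofReal_re,
      Complex.ofReal_im, Complex.zero_im, Complex.mul_re]
    norm_num
    field_simp
    ring

/-- Newton's inequality after any number of real polar derivatives. -/
theorem newton_U {c : ℕ → ℝ} (T : Finset ι)
    (h : Stab (2 + T.card) (PS (2 + T.card) (fun j => (c j : ℂ)) 0))
    (t : ℝ) {b : ι → ℝ} (hb : ∀ i ∈ T, 0 ≤ b i) :
    U t b c T 0 * U t b c T 2 ≤ U t b c T 1 ^ 2 := by
  apply newton_two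
  have h1 := stab_U T h (t := (t : ℂ)) (by simp) hb
  have : U (t : ℂ) (fun i => (b i : ℂ)) (fun j => (c j : ℂ)) T
      = fun j => ((U t b c T j : ℝ) : ℂ) := by
    funext s
    have := U_map Complex.ofRealHom t b c T s
    simpa using this.symm
  rwa [this] at h1

/-- Newton's inequality for the sequence itself. -/
theorem newton_zero {c : ℕ → ℝ} {k : ℕ}
    (h : Stab (2 + k) (PS (2 + k) (fun j => (c j : ℂ)) 0)) : c 0 * c 2 ≤ c 1 ^ 2 := by
  have h1 := newton_U (Finset.range k) (c := c) (by rw [Finset.card_range]; exact h) 1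
    (b := fun _ => 0) (fun _ _ => le_rfl)
  have h2 : ∀ (T : Finset ℕ) (s : ℕ), U (1 : ℝ) (fun _ => (0 : ℝ)) c T s = c s := by
    intro T
    induction T using Finset.induction with
    | empty => intro s; exact U_empty _ _ _ s
    | insert k T hk ih => intro s; rw [U_insert _ _ _ hk, ih]; ring
  rwa [h2, h2, h2] at h1

/-- Euler-type identity for `PS`. -/
theorem PS_euler {K : Type*} [CommRing K] (k : ℕ) (w : ℕ → K) (s : ℕ) :
    PS (k + 1) (fun i => (1 - (i : K)) * w i) s
      = C (1 - (s : K)) * PS (k + 1) w s + C ((k : K) + 1) * PS k w (s + 1) := by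
  induction k generalizing s with
  | zero =>
    simp only [PS]
    push_cast
    simp only [map_sub, map_mul, map_one, map_natCast, map_add, map_zero]
    ring
  | succ k ih =>
    rw [PS_succ (k + 1), ih, ih, PS_succ (k + 1) w, PS_succ k w (s + 1), PS_succ k w s]
    push_cast
    simp only [map_sub, map_one, map_natCast, map_add]
    ring

/-- coefficients of `PS` -/
theorem coeff_PS {K : Type*} [CommRing K] (k : ℕ) (c : ℕ → K) (s i j : ℕ) (h : i + j = k) :
    (PS k c s).coeff i = (-1) ^ j * (k.choose j : K) * c (s + j) := by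
  induction k generalizing s i j with
  | zero =>
    obtain ⟨rfl, rfl⟩ : i = 0 ∧ j = 0 := by omega
    simp [PS]
  | succ k ih =>
    rw [PS_succ, coeff_sub]
    cases i with
    | zero =>
      obtain rfl : j = k + 1 := by omega
      rw [mul_coeff_zero, coeff_X_zero, zero_mul, ih (s + 1) 0 k (by omega)]
      simp only [Nat.choose_self, Nat.cast_one]
      rw [pow_succ, show s + 1 + k = s + (k + 1) by ring]
      ring
    | succ i =>
      rw [coeff_X_mul, ih s i j (by omega)]
      cases j with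
      | zero =>
        rw [coeff_eq_zero_of_natDegree_lt (lt_of_le_of_lt (natDegree_PS_le k c (s + 1))
          (by omega))]
        simp
      | succ j =>
        rw [ih (s + 1) (i + 1) j (by omega), Nat.choose_succ_succ' k j]
        rw [show s + 1 + j = s + (j + 1) by ring]
        push_cast
        ring

end Pool.Agent.W_MP_0cd67c_ag
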