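import Pool.Agent.W_MP_0cd67c_ag.HalfPlane

/-!
The operators `∏ (t - b_k σ)` (`σ` the left shift) on sequences.
-/

namespace Pool.Agent.W_MP_0cd67c_ag

open Polynomial

variable {R : Type*} [CommRing R] {ι : Type*} [DecidableEq ι]

set_option linter.unusedSectionVars false

/-- `L w s q = ∑_j q_j w_{s+j}` -/
noncomputable def L (w : ℕ → R) (s : ℕ) : R[X] →ₗ[R] R :=
  Polynomial.lsum fun j => LinearMap.toSpanSingleton R R (w (s + j))

theorem L_monomial (w : ℕ → R) (s j : ℕ) (a : R) : L w s (monomial j a) = a * w (s + j) := by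
  rw [L, Polynomial.lsum_apply, sum_monomial_index]
  · simp
  · simp

theorem L_one (w : ℕ → R) (s : ℕ) : L w s 1 = w s := by
  have := L_monomial w s 0 1
  simpa using this

theorem L_X_mul (w : ℕ → R) (s : ℕ) (q : R[X]) : L w s (X * q) = L w (s + 1) q := by
  induction q using Polynomial.induction_on' with
  | add p q hp hq => rw [mul_add, map_add, map_add, hp, hq]
  | monomial n a =>
    rw [X_mul_monomial, L_monomial, L_monomial]
    congr 2; ring

theorem L_C_mul (w : ℕ → R) (s : ℕ) (c : R) (q : R[X]) : L w s (C c * q) = c * L w s q := by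
  rw [C_mul', map_smul, smul_eq_mul]

/-- `U t b w T s = (∏_{k ∈ T} (t - b_k σ) w)_s` -/
noncomputable def U (t : R) (b : ι → R) (w : ℕ → R) (T : Finset ι) (s : ℕ) : R :=
  L w s (∏ k ∈ T, (C t - C (b k) * X))

theorem U_empty (t : R) (b : ι → R) (w : ℕ → R) (s : ℕ) : U t b w ∅ s = w s := by
  rw [U, Finset.prod_empty, L_one]

theorem U_insert (t : R) (b : ι → R) (w : ℕ → R) {T : Finset ι} {k : ι} (hk : k ∉ T) (s : ℕ) :
    U t b w (insert k T) s = t * U t b w T s - b k * U t b w T (s + 1) := by
  rw [U, Finset.prod_insert hk, sub_mul, map_sub, L_C_mul, mul_assoc, L_C_mul, L_X_mul]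
  rfl

theorem U_erase (t : R) (b : ι → R) (w : ℕ → R) {T : Finset ι} {k : ι} (hk : k ∈ T) (s : ℕ) :
    U t b w T s = t * U t b w (T.erase k) s - b k * U t b w (T.erase k) (s + 1) := by
  rw [← U_insert t b w (Finset.notMem_erase k T), Finset.insert_erase hk]

theorem U_congr_seq (t : R) (b : ι → R) {w w' : ℕ → R} (T : Finset ι) (s : ℕ)
    (h : ∀ j, s ≤ j → j ≤ s + T.card → w j = w' j) : U t b w T s = U t b w' T s := by
  induction T using Finset.induction generalizing s with
  | empty => rw [U_empty, U_empty]; exact h s le_rfl (by simp)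
  | insert k T hk ih =>
    rw [Finset.card_insert_of_notMem hk] at h
    rw [U_insert _ _ _ hk, U_insert _ _ _ hk, ih s fun j h1 h2 => h j h1 (by omega),
      ih (s + 1) fun j h1 h2 => h j (by omega) (by omega)]

theorem U_map {S : Type*} [CommRing S] (φ : R →+* S) (t : R) (b : ι → R) (w : ℕ → R)
    (T : Finset ι) (s : ℕ) :
    φ (U t b w T s) = U (φ t) (fun k => φ (b k)) (fun j => φ (w j)) T s := by
  induction T using Finset.induction generalizing s with
  | empty => rw [U_empty, U_empty]
  | insert k T hk ih => rw [U_insert _ _ _ hk, U_insert _ _ _ hk, map_sub, map_mul, map_mul, ih, ih]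

theorem U_shift (t : R) (b : ι → R) (w : ℕ → R) (T : Finset ι) (s r : ℕ) :
    U t b (fun j => w (j + r)) T s = U t b w T (s + r) := by
  induction T using Finset.induction generalizing s with
  | empty => rw [U_empty, U_empty]
  | insert k T hk ih => rw [U_insert _ _ _ hk, U_insert _ _ _ hk, ih, ih, add_right_comm]

/-- Euler-type identity. -/
theorem U_euler (t : R) (b : ι → R) (w : ℕ → R) (T : Finset ι) (s : ℕ) :
    U t b (fun i => (1 - (i : R)) * w i) T s
      = (1 - (s : R)) * U t b w T s + ∑ k ∈ T, b k * U t b w (T.erase k) (s + 1) := by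
  induction T using Finset.induction generalizing s with
  | empty => simp [U_empty]
  | insert k T hk ih =>
    rw [U_insert _ _ _ hk, U_insert _ _ _ hk, ih, ih, Finset.sum_insert hk,
      Finset.erase_insert hk]
    have h1 : ∑ j ∈ T, b j * U t b w ((insert k T).erase j) (s + 1)
        = ∑ j ∈ T, b j * (t * U t b w (T.erase j) (s + 1)
            - b k * U t b w (T.erase j) (s + 1 + 1)) := by
      refine Finset.sum_congr rfl fun j hj => ?_
      have hjk : j ≠ k := fun h => hk (h ▸ hj)
      rw [Finset.erase_insert_of_ne hjk.symm, U_insert]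
      exact fun h => hk (Finset.mem_of_mem_erase h)
    rw [h1]
    push_cast
    have h2 : ∑ j ∈ T, b j * (t * U t b w (T.erase j) (s + 1)
            - b k * U t b w (T.erase j) (s + 1 + 1))
        = t * (∑ j ∈ T, b j * U t b w (T.erase j) (s + 1))
          - b k * (∑ j ∈ T, b j * U t b w (T.erase j) (s + 1 + 1)) := by
      rw [Finset.mul_sum, Finset.mul_sum, ← Finset.sum_sub_distrib]
      refine Finset.sum_congr rfl fun j _ => ?_
      ring
    rw [h2]
    ring

section poly

variable {K : Type*} [CommRing K]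

/-- the polynomial version: `t` is the variable. -/
noncomputable def UP (b : ι → K) (w : ℕ → K) (T : Finset ι) (s : ℕ) : K[X] :=
  U (X : K[X]) (fun k => C (b k)) (fun j => C (w j)) T s

theorem UP_insert (b : ι → K) (w : ℕ → K) {T : Finset ι} {k : ι} (hk : k ∉ T) (s : ℕ) :
    UP b w (insert k T) s = X * UP b w T s - C (b k) * UP b w T (s + 1) :=
  U_insert _ _ _ hk s

theorem UP_erase (b : ι → K) (w : ℕ → K) {T : Finset ι} {k : ι} (hk : k ∈ T) (s : ℕ) :
    UP b w T s = X * UP b w (T.erase k) s - C (b k) * UP b w (T.erase k) (s + 1) :=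
  U_erase _ _ _ hk s

theorem UP_empty (b : ι → K) (w : ℕ → K) (s : ℕ) : UP b w (∅ : Finset ι) s = C (w s) :=
  U_empty _ _ _ s

theorem eval_UP (b : ι → K) (w : ℕ → K) (T : Finset ι) (s : ℕ) (t : K) :
    (UP b w T s).eval t = U t b w T s := by
  have := U_map (evalRingHom t) (X : K[X]) (fun k => C (b k)) (fun j => C (w j)) T s
  simpa [UP] using this

theorem map_UP {S : Type*} [CommRing S] (φ : K →+* S) (b : ι → K) (w : ℕ → K)
    (T : Finset ι) (s : ℕ) :
    (UP b w T s).map φ = UP (fun k => φ (b k)) (fun j => φ (w j)) T s := by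
  have := U_map (mapRingHom φ) (X : K[X]) (fun k => C (b k)) (fun j => C (w j)) T s
  simpa [UP] using this

theorem natDegree_UP_le (b : ι → K) (w : ℕ → K) (T : Finset ι) (s : ℕ) :
    (UP b w T s).natDegree ≤ T.card := by
  induction T using Finset.induction generalizing s with
  | empty => rw [UP_empty]; simp
  | insert k T hk ih =>
    rw [UP_insert _ _ hk, Finset.card_insert_of_notMem hk]
    refine (natDegree_sub_le _ _).trans (max_le ?_ ?_)
    · refine natDegree_mul_le.trans ?_
      have := natDegree_X_le (R := K)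
      have := ih s
      omega
    · refine (natDegree_C_mul_le _ _).trans ?_
      have := ih (s + 1)
      omega

theorem coeff_UP_card (b : ι → K) (w : ℕ → K) (T : Finset ι) (s : ℕ) :
    (UP b w T s).coeff T.card = w s := by
  induction T using Finset.induction generalizing s with
  | empty => rw [UP_empty]; simp
  | insert k T hk ih =>
    rw [UP_insert _ _ hk, Finset.card_insert_of_notMem hk, coeff_sub, coeff_X_mul, ih,
      coeff_C_mul, coeff_eq_zero_of_natDegree_lt (lt_of_le_of_lt (natDegree_UP_le b w T _)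
        (Nat.lt_succ_self _))]
    ring

theorem derivative_UP (b : ι → K) (w : ℕ → K) (T : Finset ι) (s : ℕ) :
    derivative (UP b w T s) = ∑ k ∈ T, UP b w (T.erase k) s := by
  induction T using Finset.induction generalizing s with
  | empty => rw [UP_empty]; simp
  | insert k T hk ih =>
    rw [UP_insert _ _ hk, Finset.sum_insert hk, Finset.erase_insert hk, derivative_sub,
      derivative_mul, derivative_X, one_mul, derivative_C_mul, ih, ih]
    have h1 : ∑ j ∈ T, UP b w ((insert k T).erase j) s
        = ∑ j ∈ T, (X * UP b w (T.erase j) s - C (b k) * UP b w (T.erase j) (s + 1)) := by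
      refine Finset.sum_congr rfl fun j hj => ?_
      have hjk : j ≠ k := fun h => hk (h ▸ hj)
      rw [Finset.erase_insert_of_ne hjk.symm, UP_insert]
      exact fun h => hk (Finset.mem_of_mem_erase h)
    rw [h1, Finset.sum_sub_distrib, Finset.mul_sum, Finset.mul_sum]
    ring

end poly

end Pool.Agent.W_MP_0cd67c_ag
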