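import Pool.Agent.W_MP_0cd67c_ag.Generic

/-!
The generic case: `β` separable.
-/

namespace Pool.Agent.W_MP_0cd67c_ag

open Polynomial

/-- scalar factor -/
noncomputable def rho (n i : ℕ) : ℝ := (-1) ^ i / ((n.choose i : ℝ) * (1 - (i : ℝ)))

/-- the sequence `w_i = E_i / (1 - i)` attached to `g` -/
noncomputable def wseq (n : ℕ) (g : ℝ[X]) (i : ℕ) : ℝ := rho n i * g.coeff (n - i)

theorem PS_wseq {n : ℕ} {g : ℝ[X]} (hg : g.natDegree ≤ n)
    (h0 : g.coeff (n - 1) = 0) :
    PS n (fun j => (1 - (j : ℝ)) * wseq n g j) 0 = g := by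
  ext i
  rcases Nat.lt_or_ge n i with h | h
  · rw [coeff_eq_zero_of_natDegree_lt (lt_of_le_of_lt (natDegree_PS_le _ _ _) h),
      coeff_eq_zero_of_natDegree_lt (lt_of_le_of_lt hg h)]
  · obtain ⟨j, hj⟩ : ∃ j, i + j = n := ⟨n - i, by omega⟩
    rw [coeff_PS n _ 0 i j hj, zero_add]
    have hij : n - j = i := by omega
    by_cases hj1 : j = 1
    · subst hj1
      rw [← hij, h0]; simp
    · have hc : (n.choose j : ℝ) ≠ 0 := by
        exact_mod_cast (Nat.choose_pos (by omega)).ne'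
      have h1 : (1 - (j : ℝ)) ≠ 0 := by
        intro h
        apply hj1
        have : (j : ℝ) = 1 := by linarith
        exact_mod_cast this
      rw [wseq, rho, hij]
      have h2 : ((-1 : ℝ) ^ j) * (-1) ^ j = 1 := by
        rw [← mul_pow]; simp
      field_simp
      linear_combination (g.coeff i) * h2

theorem map_PS {K S : Type*} [CommRing K] [CommRing S] (φ : K →+* S) (k : ℕ) (c : ℕ → K)
    (s : ℕ) : (PS k c s).map φ = PS k (fun j => φ (c j)) s := by
  induction k generalizing s with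
  | zero => simp [PS]
  | succ k ih => rw [PS_succ, PS_succ, Polynomial.map_sub, Polynomial.map_mul, map_X, ih, ih]

theorem stab_congr {k l : ℕ} {p q : ℂ[X]} (h : Stab k p) (hkl : k = l) (hpq : p = q) :
    Stab l q := by
  subst hkl; subst hpq; exact h

theorem zf_neg {p : ℂ[X]} (h : ZF p) : ZF (-p) := by
  intro z hz; rw [eval_neg]; exact neg_ne_zero.2 (h z hz)

/-- the sequence `E` is real-rooted -/
theorem stab_E {N : ℕ} {g : ℝ[X]} (hg : g.natDegree ≤ N + 2) (h0 : g.coeff (N + 1) = 0)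
    (hreal : ZF (g.map (algebraMap ℝ ℂ))) :
    Stab (2 + N) (PS (2 + N) (fun j => (((1 - (j : ℝ)) * wseq (N + 2) g j : ℝ) : ℂ)) 0) := by
  have h1 := PS_wseq (n := N + 2) hg (by simpa using h0)
  have h2 := map_PS (algebraMap ℝ ℂ) (N + 2) (fun j => (1 - (j : ℝ)) * wseq (N + 2) g j) 0
  rw [h1] at h2
  refine stab_congr (hreal.stab (k := N + 2) (natDegree_map_le.trans hg)) (by ring) ?_
  rw [h2, add_comm 2 N]
  rfl

/-- the sequence `w_{2+j}` is real-rooted -/
theorem stab_Psi {N : ℕ} {w : ℕ → ℝ}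
    (hE : Stab (2 + N) (PS (2 + N) (fun j => (((1 - (j : ℝ)) * w j : ℝ) : ℂ)) 0)) :
    Stab N (PS N (fun j => ((w (j + 2) : ℝ) : ℂ)) 0) := by
  have h1 : Stab (N + 1 + 1) (PS (N + 1 + 1) (fun j => (((1 - (j : ℝ)) * w j : ℝ) : ℂ)) 0) :=
    stab_congr hE (by ring) (by rw [show 2 + N = N + 1 + 1 by ring])
  have h2 := stab_step h1 (t := 0) (b := 1) (by simp) (by norm_num)
  rw [PS_lin (N + 1) (fun j => (((1 - (j : ℝ)) * w j : ℝ) : ℂ))
    (fun j => (((1 - ((j + 1 : ℕ) : ℝ)) * w (j + 1) : ℝ) : ℂ))] at h2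
  have h3 := PS_shift (N + 1) (fun j => (((1 - (j : ℝ)) * w j : ℝ) : ℂ)) 0 1
  rw [h3] at h2
  have h4 : PS (N + 1) (fun j => (((1 - (j : ℝ)) * w j : ℝ) : ℂ)) (0 + 1)
      = C ((N : ℂ) + 1) * PS N (fun j => ((w j : ℝ) : ℂ)) 2 := by
    have := PS_euler N (fun j => ((w j : ℝ) : ℂ)) 1
    simp only [Nat.cast_one, sub_self, map_zero, zero_mul, zero_add] at this
    rw [← this]
    congr 1
    funext j
    push_cast; ring
  rw [h4] at h2
  have h5 : PS N (fun j => ((w (j + 2) : ℝ) : ℂ)) 0 = PS N (fun j => ((w j : ℝ) : ℂ)) 2 :=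
    PS_shift N (fun j => ((w j : ℝ) : ℂ)) 0 2
  rw [h5]
  by_cases hz : PS N (fun j => ((w j : ℝ) : ℂ)) 2 = 0
  · rw [hz]; exact stab_zero N
  · have hne : (C 0 * PS (N + 1) (fun j => (((1 - (j : ℝ)) * w j : ℝ) : ℂ)) 0 -
        C ((1 : ℝ) : ℂ) * (C ((N : ℂ) + 1) * PS N (fun j => ((w j : ℝ) : ℂ)) 2)) ≠ 0 := by
      have hN : (C ((N : ℂ) + 1)) ≠ 0 := by
        rw [Ne, C_eq_zero]; exact_mod_cast Nat.succ_ne_zero N
      simp only [map_zero, zero_mul, zero_sub, Complex.ofReal_one, map_one, one_mul]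
      exact neg_ne_zero.2 (mul_ne_zero hN hz)
    have h6 := h2.zf hne
    simp only [map_zero, zero_mul, zero_sub, Complex.ofReal_one, map_one, one_mul] at h6
    have h7 := zf_neg h6
    rw [neg_neg] at h7
    exact (h7.of_C_mul).stab (natDegree_PS_le _ _ _)

variable {ι : Type*} [DecidableEq ι]

/-- the polynomial `f` attached to `(w, a)` -/
noncomputable def fpoly {K : Type*} [CommRing K] (a : ι → K) (w : ℕ → K) (S : Finset ι) : K[X] :=
  X * UP a w S 0 + C (∑ i ∈ S, a i) * UP a w S 1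

theorem fpoly_insert {K : Type*} [CommRing K] (a : ι → K) (w : ℕ → K) {T : Finset ι} {k : ι}
    (hk : k ∉ T) : fpoly a w (insert k T)
      = X * fpoly a w T - C (a k * (a k + ∑ i ∈ T, a i)) * UP a w T 2 := by
  rw [fpoly, fpoly, UP_insert _ _ hk, UP_insert _ _ hk, Finset.sum_insert hk]
  simp only [map_add, map_mul]
  ring

theorem generic_zf {N : ℕ} {g : ℝ[X]} (hg : g.natDegree ≤ N + 2) (h0 : g.coeff (N + 1) = 0)
    (hmon : g.coeff (N + 2) = 1) (hreal : ZF (g.map (algebraMap ℝ ℂ)))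
    (T : Finset ι) (hT : T.card = N) {k : ι} (hk : k ∉ T) (a : ι → ℝ)
    (ha : ∀ i ∈ insert k T, 0 < a i)
    (hdeg : (UP a (wseq (N + 2) g) T 2).natDegree = N)
    (hsep : (UP a (wseq (N + 2) g) T 2).Separable) :
    ZF ((fpoly a (wseq (N + 2) g) (insert k T)).map (algebraMap ℝ ℂ)) := by
  set w := wseq (N + 2) g with hw
  have haT : ∀ i ∈ T, 0 < a i := fun i hi => ha i (Finset.mem_insert_of_mem hi)
  have hE : Stab (2 + T.card) (PS (2 + T.card) (fun j => (((1 - (j : ℝ)) * w j : ℝ) : ℂ)) 0) := by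
    rw [hT]; exact stab_E hg h0 hreal
  have hΨ : Stab T.card (PS T.card (fun j => ((w (j + 2) : ℝ) : ℂ)) 0) := stab_Psi hE
  have hw0 : w 0 = 1 := by
    rw [hw, wseq, rho]; simp [hmon]
  have hw2 : 0 ≤ w 2 := by
    have h1 := newton_zero hE
    push_cast at h1
    rw [hw0] at h1
    linarith
  have hcoeff : (UP a w T 2).coeff N = w 2 := by
    have := coeff_UP_card a w T 2
    rwa [hT] at this
  have hβ0 : UP a w T 2 ≠ 0 := fun h => not_separable_zero (h ▸ hsep)
  have hlc : (UP a w T 2).leadingCoeff = w 2 := by rw [leadingCoeff, hdeg, hcoeff]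
  have hw2' : 0 < w 2 := by
    rcases hw2.lt_or_eq with h | h
    · exact h
    · exfalso; apply hβ0
      rw [← leadingCoeff_eq_zero, hlc, ← h]
  -- complex evaluation
  have hevC : ∀ (s : ℕ) (z : ℂ) , ((UP a w T s).map (algebraMap ℝ ℂ)).eval z
      = U z (fun i => (a i : ℂ)) (fun j => (w j : ℂ)) T s := by
    intro s z
    rw [map_UP, eval_UP]; rfl
  have hβzf : ZF ((UP a w T 2).map (algebraMap ℝ ℂ)) := by
    intro z hz
    rw [hevC]
    have hne : PS (0 + T.card) (fun j => ((w (j + 2) : ℝ) : ℂ)) 0 ≠ 0 := by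
      rw [zero_add]
      intro h
      have := coeff_PS T.card (fun j => ((w (j + 2) : ℝ) : ℂ)) 0 T.card 0 (by ring)
      rw [h] at this
      simp at this
      have h' : w 2 = 0 := by exact_mod_cast this.symm
      linarith
    have h1 : Stab (0 + T.card) (PS (0 + T.card) (fun j => ((w (j + 2) : ℝ) : ℂ)) 0) := by
      rw [zero_add]; exact hΨ
    have h2 := zf_U T (h1.zf hne) hz (b := a) haT
    have h3 := h2 Complex.I (by simp)
    simp only [PS, eval_C] at h3
    have h4 := U_shift z (fun i => (a i : ℂ)) (fun j => ((w j : ℝ) : ℂ)) T 0 2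
    rw [h4] at h3
    simpa using h3
  -- F
  set F := fpoly a w T with hF
  have hFdeg : F.natDegree ≤ N + 1 := by
    rw [hF, fpoly]
    refine (natDegree_add_le _ _).trans (max_le ?_ ?_)
    · refine natDegree_mul_le.trans ?_
      have := natDegree_UP_le a w T 0
      rw [natDegree_X]; omega
    · refine (natDegree_C_mul_le _ _).trans ?_
      have := natDegree_UP_le a w T 1
      omega
  have hFl : F.coeff (N + 1) = 1 := by
    rw [hF, fpoly, coeff_add, coeff_X_mul, coeff_C_mul]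
    have h1 := coeff_UP_card a w T 0
    rw [hT] at h1
    rw [h1, hw0, coeff_eq_zero_of_natDegree_lt (lt_of_le_of_lt (natDegree_UP_le a w T 1)
      (by omega))]
    ring
  have hsign : ∀ t : ℝ, (UP a w T 2).eval t = 0 →
      F.eval t * (derivative (UP a w T 2)).eval t ≤ 0 := by
    intro t ht
    rw [eval_UP] at ht
    have h1 := main_ineq T a (fun i hi => (haT i hi).le) w hE hΨ t ht
    rw [derivative_UP, eval_finsetSum, hF, fpoly]
    simp only [eval_add, eval_mul, eval_X, eval_C, eval_UP]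
    exact h1
  intro z hz hfz
  have him := im_div_pos hdeg (by rw [hlc]; exact hw2') hsep hβzf hFdeg
    (by rw [hFl]; norm_num) hsign z hz
  rw [fpoly_insert _ _ hk] at hfz
  simp only [Polynomial.map_sub, Polynomial.map_mul, map_X, map_C, eval_sub, eval_mul, eval_X,
    eval_C] at hfz
  have hβz := hβzf z hz
  have hz0 : z ≠ 0 := by rintro rfl; simp at hz
  set α : ℝ := a k * (a k + ∑ i ∈ T, a i) with hα
  have hα0 : 0 ≤ α := by
    have h1 : 0 < a k := ha k (Finset.mem_insert_self _ _)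
    have h2 : 0 ≤ ∑ i ∈ T, a i := Finset.sum_nonneg fun i hi => (haT i hi).le
    positivity
  have hq : (F.map (algebraMap ℝ ℂ)).eval z / ((UP a w T 2).map (algebraMap ℝ ℂ)).eval z
      = (α : ℂ) * z⁻¹ := by
    rw [div_eq_iff hβz]
    field_simp
    have : z * (F.map (algebraMap ℝ ℂ)).eval z
        - (algebraMap ℝ ℂ) α * ((UP a w T 2).map (algebraMap ℝ ℂ)).eval z = 0 := hfz
    linear_combination this
  rw [hq, Complex.im_ofReal_mul, Complex.inv_im] at him
  have : 0 ≤ z.im / Complex.normSq z := div_nonneg hz.le (Complex.normSq_nonneg _)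
  rw [neg_div] at him
  nlinarith

end Pool.Agent.W_MP_0cd67c_ag
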